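import Pool.Agent.Lib.TG_h38.PFg

/-!
# Functions of maximal degree: base points

`x` transcendental over `κ`, `[K : κ(x + c y)] ≤ [K : κ(x)]` for all but finitely many constants
`c`. Then `y` is regular where `x` is, and its poles are bounded by those of `x`. Hence `y / x` is
integral over `κ[1 / x]`, and its minimal polynomial over `κ(x)` has coefficients in `κ[1 / x]`.
-/

set_option autoImplicit false

open Polynomial IntermediateField Module

namespace Pool.Agent.PF

universe u w

variable {κ : Type u} {K : Type w} [Field κ] [Field K] [Algebra κ K]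

section Max

variable {k : Type*} [Field k] [Algebra k κ] [Algebra k K] [IsScalarTower k κ K]

theorem Pl.triv' (P : Pl κ K) {c : k} (hc : c ≠ 0) : P.v (algebraMap k K c) = 0 := by
  rw [IsScalarTower.algebraMap_apply k κ K]
  exact P.triv _ (by rwa [Ne, map_eq_zero])

/-- `x + c y` has the expected value, for all `c` but one. -/
theorem good_value (P : Pl κ K) {x y : K} (hx : x ≠ 0) (hy : y ≠ 0) {c c' : k} (hcc : c ≠ c')
    (hc : ¬ (x + algebraMap k K c * y ≠ 0 ∧
      P.v (x + algebraMap k K c * y) = min (P.v x) (P.v y))) :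
    x + algebraMap k K c' * y ≠ 0 ∧
      P.v (x + algebraMap k K c' * y) = min (P.v x) (P.v y) := by
  by_contra hc'
  have key : ∀ c : k, ¬ (x + algebraMap k K c * y ≠ 0 ∧
      P.v (x + algebraMap k K c * y) = min (P.v x) (P.v y)) →
      P.Ge (min (P.v x) (P.v y) + 1) (x + algebraMap k K c * y) := by
    intro c hc h0
    have h1 : P.Ge (min (P.v x) (P.v y)) (x + algebraMap k K c * y) := by
      refine Pl.Ge.add (Pl.Ge.mono (min_le_left _ _) (Pl.ge_self x)) ?_
      have h2 : P.Ge 0 (algebraMap k K c) := by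
        intro h3
        rw [P.triv' (k := k) (by rintro rfl; exact h3 (map_zero _))]
      have h4 := Pl.Ge.mul h2 (Pl.ge_self (P := P) y)
      exact Pl.Ge.mono (by rw [zero_add]; exact min_le_right _ _) h4
    have h2 := h1 h0
    by_contra h3
    exact hc ⟨h0, by omega⟩
  have h1 := key c hc
  have h2 := key c' hc'
  have hcc' : c - c' ≠ 0 := sub_ne_zero.2 hcc
  have h3 : P.Ge (min (P.v x) (P.v y) + 1) (algebraMap k K (c - c') * y) := by
    have h4 := h1.sub h2
    have h5 : x + algebraMap k K c * y - (x + algebraMap k K c' * y) =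
        algebraMap k K (c - c') * y := by rw [map_sub]; ring
    rwa [h5] at h4
  have hne : algebraMap k K (c - c') ≠ 0 := by rwa [Ne, map_eq_zero]
  have h4 := h3 (mul_ne_zero hne hy)
  rw [P.mul _ _ hne hy, P.triv' hcc', zero_add] at h4
  have h5 : P.Ge (min (P.v x) (P.v y) + 1) x := by
    have h7 : P.Ge 0 (algebraMap k K c) := by
      intro h3
      rw [P.triv' (k := k) (by rintro rfl; exact h3 (map_zero _))]
    have h8 := Pl.Ge.mul h7 (Pl.ge_self (P := P) y)
    have h9 := h1.sub (Pl.Ge.mono (by rw [zero_add]; exact h4) h8)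
    rwa [add_sub_cancel_right] at h9
  have h6 := h5 hx
  have h7 : min (P.v x) (P.v y) + 1 ≤ min (P.v x) (P.v y) := le_min h6 h4
  omega

/-- Functions of maximal degree. -/
theorem ge_of_max [Infinite k] (hF : FF κ K) {x y : K} (hx : Transcendental κ x) {B : Set k}
    (hB : B.Finite) (h : ∀ c : k, c ∉ B → IsAlgebraic κ (x + algebraMap k K c * y) ∨
      finrank κ⟮x + algebraMap k K c * y⟯ K ≤ finrank κ⟮x⟯ K) (P : Pl κ K) :
    P.Ge (min 0 (P.v x)) y := by
  classical
  by_contra hcon
  have hy0 : y ≠ 0 := by rintro rfl; exact hcon Pl.Ge.zero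
  have hP : P.v y < min 0 (P.v x) := by
    by_contra h1
    exact hcon fun _ => not_lt.1 h1
  have hx0 := transcendental_ne_zero hx
  set T : Finset (Pl κ K) := (finite_support hF x).toFinset ∪ (finite_support hF y).toFinset
    with hT
  have hmem : ∀ Q : Pl κ K, Q.v x ≠ 0 ∨ Q.v y ≠ 0 → Q ∈ T := by
    intro Q hQ
    rw [hT, Finset.mem_union, Set.Finite.mem_toFinset, Set.Finite.mem_toFinset]
    exact hQ
  -- the bad constants
  let bad : Pl κ K → Set k := fun Q => {c | ¬ (x + algebraMap k K c * y ≠ 0 ∧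
      Q.v (x + algebraMap k K c * y) = min (Q.v x) (Q.v y))}
  have hbad : ∀ Q, (bad Q).Finite := by
    intro Q
    apply Set.Subsingleton.finite
    intro c hc c' hc'
    by_contra hne
    exact hc' (good_value Q hx0 hy0 hne hc)
  have hfin : (B ∪ ⋃ Q ∈ T, bad Q).Finite :=
    hB.union (Set.Finite.biUnion T.finite_toSet fun Q _ => hbad Q)
  obtain ⟨c, hc⟩ := hfin.exists_notMem
  have hcB : c ∉ B := fun h1 => hc (Or.inl h1)
  have hcT : ∀ Q ∈ T, x + algebraMap k K c * y ≠ 0 ∧
      Q.v (x + algebraMap k K c * y) = min (Q.v x) (Q.v y) := by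
    intro Q hQ
    by_contra h1
    exact hc (Or.inr (Set.mem_biUnion hQ h1))
  have hPT : P ∈ T := hmem P (Or.inr (by
    have := min_le_left 0 (P.v x)
    omega))
  have hval := (hcT P hPT).2
  have hvneg : P.v (x + algebraMap k K c * y) < 0 := by
    rw [hval]
    have := min_le_left 0 (P.v x)
    have := min_le_right (P.v x) (P.v y)
    omega
  have htr : Transcendental κ (x + algebraMap k K c * y) :=
    Pl.transcendental_of_ne (P := P) (by omega)
  have hle : finrank κ⟮x + algebraMap k K c * y⟯ K ≤ finrank κ⟮x⟯ K := by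
    rcases h c hcB with h1 | h1
    · exact absurd h1 htr
    · exact h1
  rw [← sum_poles_finset hF hx T (fun Q hQ => hmem Q (Or.inl hQ.ne)),
    ← sum_poles_finset hF htr T (fun Q hQ => ?_)] at hle
  · refine absurd hle (not_le.2 ?_)
    refine Finset.sum_lt_sum (fun Q hQ => ?_) ⟨P, hPT, ?_⟩
    · refine Nat.mul_le_mul_right _ ?_
      rw [(hcT Q hQ).2]
      have := min_le_left (Q.v x) (Q.v y)
      omega
    · refine Nat.mul_lt_mul_of_pos_right ?_ (P.deg_pos hF)
      rw [hval]
      have h1 := min_le_right (P.v x) (P.v y)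
      have h2 := min_le_right 0 (P.v x)
      have h3 := min_le_left 0 (P.v x)
      omega
  · apply hmem
    by_contra h1
    push Not at h1
    obtain ⟨h2, h3⟩ := h1
    have h4 : Q.Ge 0 (x + algebraMap k K c * y) := by
      refine Pl.Ge.add (fun _ => h2.ge) ?_
      have h7 : Q.Ge 0 (algebraMap k K c) := by
        intro h3
        rw [Q.triv' (k := k) (by rintro rfl; exact h3 (map_zero _))]
      have := Pl.Ge.mul h7 (a := 0) (b := 0) (y := y) (fun _ => h3.ge)
      simpa using this
    have h5 : x + algebraMap k K c * y ≠ 0 := by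
      intro h6
      rw [h6, Q.zero] at hQ
      exact lt_irrefl _ hQ
    have := h4 h5
    omega

end Max

/-- Elements which are regular at all places over `κ[t]` are integral over `κ[t]`. -/
theorem isIntegral_of_regular (hF : FF κ K) {t z : K}
    (h : ∀ P : Pl κ K, 0 ≤ P.v t → P.Ge 0 z) : IsIntegral (Algebra.adjoin κ {t}) z := by
  by_contra hcon
  set A : Subalgebra κ K := Algebra.adjoin κ {t} with hA
  set R : Subring K := (integralClosure A K).toSubring with hR
  have : IsIntegrallyClosedIn R K :=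
    inferInstanceAs (IsIntegrallyClosedIn (integralClosure A K) K)
  obtain ⟨V, hRV, hzV⟩ := Subring.exists_le_valuationSubring_of_isIntegrallyClosedIn
    (R := R) (x := z) hcon
  have hV : ∀ c : κ, algebraMap κ K c ∈ V := by
    intro c
    apply hRV
    change IsIntegral A (algebraMap κ K c)
    have h1 : algebraMap κ K c = algebraMap A K (algebraMap κ A c) := rfl
    rw [h1]
    exact isIntegral_algebraMap
  have hne : V ≠ ⊤ := by
    rintro rfl
    exact hzV trivial
  obtain ⟨P, hP⟩ := exists_pl hF hV hne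
  have ht : t ∈ V := by
    apply hRV
    change IsIntegral A t
    exact isIntegral_algebraMap (R := A) (A := K)
      (x := ⟨t, Algebra.subset_adjoin (Set.mem_singleton t)⟩)
  rw [hP] at ht hzV
  apply hzV
  apply h
  by_cases ht0 : t = 0
  · rw [ht0, P.zero]
  · exact ht ht0

theorem isIntegral_div (hF : FF κ K) {x y : K} (hx : Transcendental κ x)
    (h : ∀ P : Pl κ K, P.Ge (min 0 (P.v x)) y) :
    IsIntegral (Algebra.adjoin κ {x⁻¹}) (y / x) := by
  refine isIntegral_of_regular hF fun P hP => ?_
  have hx0 := transcendental_ne_zero hx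
  rw [P.map_inv] at hP
  have h1 := Pl.Ge.mul (h P) (Pl.ge_self (P := P) x⁻¹)
  rw [P.map_inv, min_eq_right (by omega)] at h1
  rw [div_eq_mul_inv]
  exact Pl.Ge.mono (by omega) h1

/-- `κ[t]` is integrally closed. -/
theorem isIntegrallyClosed_adjoin {t : K} (ht : Transcendental κ t) :
    IsIntegrallyClosed (Algebra.adjoin κ {t}) := by
  have hinj : Function.Injective (aeval t : κ[X] →ₐ[κ] K) :=
    transcendental_iff_injective.1 ht
  have h1 : (Algebra.adjoin κ {t}) = (aeval t : κ[X] →ₐ[κ] K).range :=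
    Algebra.adjoin_singleton_eq_range_aeval κ t
  exact IsIntegrallyClosed.of_equiv ((AlgEquiv.ofInjective _ hinj).trans
    (Subalgebra.equivOfEq _ _ h1.symm)).toRingEquiv

open scoped IntermediateField.algebraAdjoinAdjoin in
/-- The minimal polynomial over `κ(t)` of an element integral over `κ[t]`. -/
theorem minpoly_coeff_mem {t z : K} (ht : Transcendental κ t)
    (hz : IsIntegral (Algebra.adjoin κ {t}) z) (i : ℕ) :
    ((minpoly κ⟮t⟯ z).coeff i : K) ∈ Algebra.adjoin κ {t} := by
  have h1 := isIntegrallyClosed_adjoin ht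
  have h3 := minpoly.isIntegrallyClosed_eq_field_fractions κ⟮t⟯ K hz
  rw [Algebra.algebraMap_self_apply] at h3
  rw [h3, coeff_map]
  exact ((minpoly (Algebra.adjoin κ {t}) z).coeff i).2

/-- Corollary M1'. -/
theorem minpoly_coeff_mem_inv (hF : FF κ K) {x y : K} (hx : Transcendental κ x)
    (h : ∀ P : Pl κ K, P.Ge (min 0 (P.v x)) y) (i : ℕ) :
    ((minpoly κ⟮x⟯ (y / x)).coeff i : K) ∈ Algebra.adjoin κ {x⁻¹} := by
  have h2 : κ⟮x⁻¹⟯ = κ⟮x⟯ := by
    apply le_antisymm
    · rw [adjoin_simple_le_iff]
      exact inv_mem (mem_adjoin_simple_self κ x)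
    · rw [adjoin_simple_le_iff]
      have := inv_mem (mem_adjoin_simple_self κ x⁻¹)
      rwa [inv_inv] at this
  have h1 := minpoly_coeff_mem (transcendental_inv hx) (isIntegral_div hF hx h) i
  rwa [h2] at h1

/-- The two statements together. -/
theorem minpoly_coeff_mem_of_max {k : Type*} [Field k] [Algebra k κ] [Algebra k K]
    [IsScalarTower k κ K] [Infinite k] (hF : FF κ K) {x y : K} (hx : Transcendental κ x)
    {B : Set k} (hB : B.Finite)
    (h : ∀ c : k, c ∉ B → IsAlgebraic κ (x + algebraMap k K c * y) ∨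
      finrank κ⟮x + algebraMap k K c * y⟯ K ≤ finrank κ⟮x⟯ K) :
    IsIntegral (Algebra.adjoin κ {x⁻¹}) (y / x) ∧
      ∀ i, ((minpoly κ⟮x⟯ (y / x)).coeff i : K) ∈ Algebra.adjoin κ {x⁻¹} :=
  ⟨isIntegral_div hF hx (ge_of_max hF hx hB h), minpoly_coeff_mem_inv hF hx (ge_of_max hF hx hB h)⟩

end Pool.Agent.PF
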