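import Pool.Agent.Lib.TG_h38.PF

/-!
# Function fields of one variable: criterion, dictionary with valuation rings
-/

set_option autoImplicit false

open Polynomial IntermediateField Module

namespace Pool.Agent.PF

universe u w

variable {κ : Type u} {K : Type w} [Field κ] [Field K] [Algebra κ K]

theorem finiteDimensional_of_transcendental {x y : K} (hx : Transcendental κ x)
    (hy : Transcendental κ y) (hfd : FiniteDimensional κ⟮x⟯ K) : FiniteDimensional κ⟮y⟯ K := by
  have halg : Algebra.IsAlgebraic κ⟮x⟯ K := Algebra.IsAlgebraic.of_finite _ _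
  have hxy : IsAlgebraic κ⟮y⟯ x :=
    isAlgebraic_adjoin_iff.mpr (.adjoin_singleton hx hy
      (isAlgebraic_adjoin_iff.mp (Algebra.IsAlgebraic.isAlgebraic y)))
  let Fyx := IntermediateField.restrictScalars κ κ⟮y⟯⟮x⟯
  let Fxy := IntermediateField.restrictScalars κ κ⟮x⟯⟮y⟯
  let : Algebra κ⟮y⟯ Fyx := κ⟮y⟯⟮x⟯.algebra
  let : Module κ⟮y⟯ Fyx := Algebra.toModule
  let : SMul κ⟮y⟯ Fyx := Algebra.toSMul
  let : Algebra κ⟮x⟯ Fxy := κ⟮x⟯⟮y⟯.algebra
  let : Module κ⟮x⟯ Fxy := Algebra.toModule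
  let : SMul κ⟮x⟯ Fxy := Algebra.toSMul
  have : FiniteDimensional κ⟮y⟯ Fyx :=
    adjoin.finiteDimensional (isAlgebraic_iff_isIntegral.mp hxy)
  have : FiniteDimensional Fyx K := by
    unfold Fyx
    rw [adjoin_simple_comm]
    have : IsScalarTower κ⟮x⟯ Fxy K := isScalarTower_mid' κ⟮x⟯⟮y⟯
    exact .right κ⟮x⟯ Fxy K
  have : IsScalarTower κ⟮y⟯ Fyx K := isScalarTower_mid' κ⟮y⟯⟮x⟯
  exact .trans κ⟮y⟯ Fyx K

/-- One transcendental `x` with `[K : κ(x)]` finite is enough. -/
theorem FF.of {x : K} (hx : Transcendental κ x) (hfd : FiniteDimensional κ⟮x⟯ K) : FF κ K :=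
  ⟨⟨x, hx⟩, fun _ hy => finiteDimensional_of_transcendental hx hy hfd⟩

namespace Pl

/-- The valuation ring of a place. -/
def vs (P : Pl κ K) : ValuationSubring K where
  carrier := {x | P.Ge 0 x}
  mul_mem' := fun {a b} ha hb => by
    have h := Ge.mul (P := P) ha hb
    simpa using h
  one_mem' := fun _ => P.map_one.ge
  add_mem' := fun ha hb => Ge.add ha hb
  zero_mem' := Ge.zero
  neg_mem' := fun ha => Ge.neg ha
  mem_or_inv_mem' := fun x => by
    by_cases hx : x = 0
    · left; rw [hx]; exact Ge.zero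
    rcases le_total 0 (P.v x) with h | h
    · left; exact fun _ => h
    · right
      intro _
      rw [P.map_inv]
      omega

theorem mem_vs {P : Pl κ K} {x : K} : x ∈ P.vs ↔ P.Ge 0 x := Iff.rfl

theorem mem_vs' {P : Pl κ K} {x : K} : x ∈ P.vs ↔ 0 ≤ P.v x := by
  rw [mem_vs]
  constructor
  · intro h
    by_cases hx : x = 0
    · rw [hx, P.zero]
    · exact h hx
  · exact fun h _ => h

theorem algebraMap_mem_vs (P : Pl κ K) (c : κ) : algebraMap κ K c ∈ P.vs := ge_algebraMap c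

theorem vs_ne_top (P : Pl κ K) : P.vs ≠ ⊤ := by
  intro h
  obtain ⟨t, ht0, ht⟩ := P.unif
  have h1 : t⁻¹ ∈ P.vs := by rw [h]; trivial
  rw [mem_vs', P.map_inv] at h1
  omega

theorem vs_injective : Function.Injective (vs : Pl κ K → ValuationSubring K) := by
  intro P Q h
  refine eq_of_ge fun x hx => ?_
  rw [← mem_vs'] at hx ⊢
  rwa [h] at hx

theorem val_lt_one_iff {P : Pl κ K} {x : K} (hx : x ≠ 0) :
    P.vs.valuation x < 1 ↔ 0 < P.v x := by
  have h1 : x⁻¹ ∈ P.vs ↔ 1 ≤ P.vs.valuation x := by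
    rw [← P.vs.valuation_le_one_iff, map_inv₀]
    have h0 : P.vs.valuation x ≠ 0 := by rwa [Ne, Valuation.zero_iff]
    exact inv_le_one₀ (zero_lt_iff.2 h0)
  rw [← not_le, ← h1, mem_vs', P.map_inv]
  omega

theorem val_eq_one_iff {P : Pl κ K} {x : K} (hx : x ≠ 0) :
    P.vs.valuation x = 1 ↔ P.v x = 0 := by
  have h1 : P.vs.valuation x ≤ 1 ↔ 0 ≤ P.v x := by
    rw [P.vs.valuation_le_one_iff, mem_vs']
  have h2 := val_lt_one_iff (P := P) hx
  constructor
  · intro h
    have h3 := h1.1 h.le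
    have h4 : ¬ 0 < P.v x := fun h5 => (h2.2 h5).ne h
    omega
  · intro h
    refine le_antisymm (h1.2 h.ge) (not_lt.1 fun h5 => ?_)
    have := h2.1 h5
    omega

theorem val_le_iff {P : Pl κ K} {x y : K} (hx : x ≠ 0) (hy : y ≠ 0) :
    P.vs.valuation x ≤ P.vs.valuation y ↔ P.v y ≤ P.v x := by
  have hy0 : P.vs.valuation y ≠ 0 := by rwa [Ne, Valuation.zero_iff]
  rw [← div_le_one₀ (zero_lt_iff.2 hy0), ← map_div₀, P.vs.valuation_le_one_iff, mem_vs',
    P.map_div hx hy]
  omega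

/-- Every nontrivial valuation ring containing `κ` is the valuation ring of a unique place. -/
theorem exists_vs (hF : FF κ K) {V : ValuationSubring K} (hV : ∀ c : κ, algebraMap κ K c ∈ V)
    (hne : V ≠ ⊤) : ∃! P : Pl κ K, P.vs = V := by
  obtain ⟨P, hP⟩ := exists_pl hF hV hne
  refine ⟨P, ?_, fun Q hQ => ?_⟩
  · ext x
    rw [mem_vs, hP]
  · apply vs_injective
    rw [hQ]
    ext x
    rw [mem_vs, hP]

end Pl

/-- The places of `K / κ` as valuation rings. -/
noncomputable def plEquiv (hF : FF κ K) :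
    Pl κ K ≃ {V : ValuationSubring K // (∀ c : κ, algebraMap κ K c ∈ V) ∧ V ≠ ⊤} where
  toFun P := ⟨P.vs, P.algebraMap_mem_vs, P.vs_ne_top⟩
  invFun V := (Pl.exists_vs hF V.2.1 V.2.2).choose
  left_inv P := by
    apply Pl.vs_injective
    exact (Pl.exists_vs hF P.algebraMap_mem_vs P.vs_ne_top).choose_spec.1
  right_inv V := by
    apply Subtype.ext
    exact (Pl.exists_vs hF V.2.1 V.2.2).choose_spec.1

/-! ### Finite sums -/

theorem finsum_eq (f : Pl κ K → ℤ) (x : K) (S : Finset (Pl κ K)) (hS : ∀ P, P.v x ≠ 0 → P ∈ S)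
    (hf : ∀ P, P.v x = 0 → f P = 0) : ∑ᶠ P, f P = ∑ P ∈ S, f P := by
  apply finsum_eq_sum_of_support_subset
  intro P hP
  rw [Function.mem_support] at hP
  exact hS P fun h => hP (hf P h)

/-- The product formula over any finite set of places containing the zeros and the poles. -/
theorem product_formula_finset (hF : FF κ K) (x : K) (S : Finset (Pl κ K))
    (hS : ∀ P, P.v x ≠ 0 → P ∈ S) : ∑ P ∈ S, P.v x * (P.deg : ℤ) = 0 := by
  rw [← finsum_eq (fun P => P.v x * (P.deg : ℤ)) x S hS (fun P h => by rw [h, zero_mul])]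
  exact product_formula hF x

/-- The degree of the poles over any finite set containing them. -/
theorem sum_poles_finset (hF : FF κ K) {x : K} (hx : Transcendental κ x) (S : Finset (Pl κ K))
    (hS : ∀ P, P.v x < 0 → P ∈ S) : ∑ P ∈ S, (-P.v x).toNat * P.deg = finrank κ⟮x⟯ K := by
  rw [← dg_poles hF hx, dg_eq_sum (poles hF x) S fun P hP => hS P ?_]
  · rfl
  · rw [poles_apply] at hP
    omega

/-- The degree of the zeros over any finite set containing them. -/
theorem sum_zeros_finset (hF : FF κ K) {x : K} (hx : Transcendental κ x) (S : Finset (Pl κ K))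
    (hS : ∀ P, 0 < P.v x → P ∈ S) : ∑ P ∈ S, (P.v x).toNat * P.deg = finrank κ⟮x⟯ K := by
  rw [← sum_zeros hF hx]
  symm
  apply finsum_eq_sum_of_support_subset
  intro P hP
  rw [Function.mem_support] at hP
  refine hS P ?_
  have := left_ne_zero_of_mul hP
  omega

end Pool.Agent.PF
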