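import Pool.Agent.Lib.TG.Basic

/-!
# TANK G: joins of models and blowing up

The local ring `RV V (P * Q)` (`NV V (P * Q)`) of the join of two models is the (normalised)
blowing up of the ideal of `RV V P` (of `NV V P`) generated by `Q / c`, for every `c ≠ 0`.
-/

set_option autoImplicit false

namespace Pool.Agent.TG

open Pool.Agent.LU2 (locV le_locV locV_mono locV_le locV_inv locV_mem locV_locV)

universe u

variable {k K : Type u} [Field k] [Field K] [Algebra k K] {V : ValuationSubring K}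
  {P Q : Submodule k K} {f q : K}

/-! ### Localisation at the centre and normalisation -/

theorem locV_eq_of_le {A B : Subalgebra k K} (hAB : A ≤ locV V B) (hBA : B ≤ locV V A) :
    locV V A = locV V B := by
  apply le_antisymm
  · rw [← locV_locV B]; exact locV_mono hAB
  · rw [← locV_locV A]; exact locV_mono hBA

theorem ncl_locV_le (A : Subalgebra k K) : ncl (locV V A) ≤ locV V (ncl A) := by
  rw [← locV_ncl_locV]
  exact le_locV _

theorem locV_ncl_le {A B : Subalgebra k K} (h : A ≤ locV V (ncl B)) :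
    locV V (ncl A) ≤ locV V (ncl B) := by
  rw [← locV_locV (ncl B)]
  refine locV_mono ?_
  calc ncl A ≤ ncl (locV V (ncl B)) := ncl_mono h
    _ ≤ locV V (ncl (ncl B)) := ncl_locV_le _
    _ = locV V (ncl B) := by rw [ncl_ncl]

theorem locV_ncl_eq {A B : Subalgebra k K} (h : A ≤ locV V (ncl B)) (h' : B ≤ locV V (ncl A)) :
    locV V (ncl A) = locV V (ncl B) :=
  le_antisymm (locV_ncl_le h) (locV_ncl_le h')

theorem le_locV_ncl (A : Subalgebra k K) : A ≤ locV V (ncl A) :=
  (le_ncl A).trans (le_locV _)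

theorem locV_le_ncl (A : Subalgebra k K) : locV V A ≤ locV V (ncl A) :=
  locV_mono (le_ncl A)

/-! ### Blowing up -/

/-- The algebra generated by `R` and the ratios `g / q`, `g ∈ Q`. -/
def bl (R : Subalgebra k K) (Q : Set K) (q : K) : Subalgebra k K :=
  Algebra.adjoin k ((R : Set K) ∪ (fun g => g / q) '' Q)

theorem le_bl (R : Subalgebra k K) (Q : Set K) (q : K) : R ≤ bl R Q q := fun _ hx =>
  Algebra.subset_adjoin (Or.inl hx)

theorem mem_bl (R : Subalgebra k K) {Q : Set K} (q : K) {g : K} (hg : g ∈ Q) :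
    g / q ∈ bl R Q q := Algebra.subset_adjoin (Or.inr ⟨g, hg, rfl⟩)

theorem bl_le {R : Subalgebra k K} {Q : Set K} {q : K} {B : Subalgebra k K} (h1 : R ≤ B)
    (h2 : ∀ g ∈ Q, g / q ∈ B) : bl R Q q ≤ B := by
  refine Algebra.adjoin_le ?_
  rintro x (hx | ⟨g, hg, rfl⟩)
  · exact h1 hx
  · exact h2 g hg

theorem bl_mem {R : Subalgebra k K} (hR : ∀ a ∈ R, a ∈ V) {Q : Set K} {q : K}
    (h : ∀ g ∈ Q, g / q ∈ V) : ∀ x ∈ bl R Q q, x ∈ V := by
  intro x hx
  induction hx using Algebra.adjoin_induction with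
  | mem x hx =>
    rcases hx with hx | ⟨g, hg, rfl⟩
    · exact hR x hx
    · exact h g hg
  | algebraMap r => exact hR _ (R.algebraMap_mem r)
  | add x y _ _ hx hy => exact V.add_mem _ _ hx hy
  | mul x y _ _ hx hy => exact V.mul_mem _ _ hx hy

theorem bl_mono {R S : Subalgebra k K} (h : R ≤ S) (Q : Set K) (q : K) : bl R Q q ≤ bl S Q q :=
  bl_le (h.trans (le_bl _ _ _)) fun _ hg => mem_bl _ _ hg

/-- `ch P f ⊔ ch Q q` as a blowing up algebra. -/
theorem sup_ch_eq_bl (R : Subalgebra k K) : R ⊔ ch Q q = bl R (Q : Set K) q := by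
  apply le_antisymm
  · exact sup_le (le_bl _ _ _) (ch_le_iff.2 fun g hg => mem_bl _ _ hg)
  · exact bl_le le_sup_left fun g hg => (le_sup_right : ch Q q ≤ _) (div_mem_ch hg)

/-- The local rings of a join. -/
theorem RV_mul_bl (hf : IsMin V P f) (hq : IsMin V Q q) :
    RV V (P * Q) = locV V (bl (RV V P) (Q : Set K) q) := by
  rw [RV_eq (hf.mul hq), RV_eq hf, ch_mul hf.mem hf.ne hq.mem hq.ne, ← sup_ch_eq_bl, locV_sup]

/-- The local rings of the normalisation of a join. -/
theorem NV_mul_bl (hf : IsMin V P f) (hq : IsMin V Q q) :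
    NV V (P * Q) = locV V (ncl (bl (NV V P) (Q : Set K) q)) := by
  rw [NV, RV_mul_bl hf hq, locV_ncl_locV]
  refine locV_ncl_eq ?_ ?_
  · exact (bl_mono RV_le_NV _ _).trans (le_locV_ncl _)
  · refine bl_le (locV_mono (ncl_mono (le_bl _ _ _))) fun g hg => ?_
    exact le_locV_ncl _ (mem_bl _ _ hg)

/-- The same with the normalised chart instead of its localisation. -/
theorem NV_mul_bl' (hf : IsMin V P f) (hq : IsMin V Q q) :
    NV V (P * Q) = locV V (ncl (bl (chN P f) (Q : Set K) q)) := by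
  rw [NV_mul_bl hf hq, NV_eq hf]
  refine locV_ncl_eq ?_ ?_
  · refine bl_le ?_ fun g hg => ?_
    · exact locV_mono ((le_bl _ _ _).trans (le_ncl _))
    · exact le_locV_ncl _ (mem_bl _ _ hg)
  · exact (bl_mono (le_locV _) _ _).trans (le_locV_ncl _)

/-- `J` is the `R`-module generated by `Q / c`; `g₀ ∈ J` of minimal value. Comparison of the two
blowing up algebras. -/
theorem bl_le_locV {R : Subalgebra k K} (hR : ∀ a ∈ R, a ∈ V) {Q : Set K} {q c : K} (hc : c ≠ 0)
    (hq : q ∈ Q) (hq0 : q ≠ 0) (hmin : ∀ g ∈ Q, g / q ∈ V) {g₀ : K}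
    (hg₀ : g₀ ∈ Submodule.span R ((fun g => g / c) '' Q)) (hg0 : g₀ ≠ 0)
    (hmin' : ∀ x ∈ Submodule.span R ((fun g => g / c) '' Q), x / g₀ ∈ V) :
    bl R (Submodule.span R ((fun g => g / c) '' Q) : Set K) g₀ ≤ locV V (bl R Q q) ∧
    bl R Q q ≤ locV V (bl R (Submodule.span R ((fun g => g / c) '' Q) : Set K) g₀) := by
  -- elements of `J` divided by `q / c`
  have key : ∀ x ∈ Submodule.span R ((fun g => g / c) '' Q), x / (q / c) ∈ bl R Q q := by
    intro x hx
    induction hx using Submodule.span_induction with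
    | mem x hx =>
      obtain ⟨g, hg, rfl⟩ := hx
      change (g / c) / (q / c) ∈ _
      rw [div_div_div_cancel_right₀ hc]
      exact mem_bl _ _ hg
    | zero => rw [zero_div]; exact zero_mem _
    | add x y _ _ hx hy => rw [add_div]; exact add_mem hx hy
    | smul a x _ hx =>
      rw [Algebra.smul_def, mul_div_assoc]
      exact mul_mem (le_bl R Q q a.2) hx
  have hblV : ∀ x ∈ bl R Q q, x ∈ V := bl_mem hR hmin
  have hqc : q / c ≠ 0 := div_ne_zero hq0 hc
  have hqJ : q / c ∈ Submodule.span R ((fun g => g / c) '' Q) :=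
    Submodule.subset_span ⟨q, hq, rfl⟩
  have hu : V.valuation (g₀ / (q / c)) = 1 := by
    have h1 : V.valuation (g₀ / (q / c)) ≤ 1 :=
      (V.valuation_le_one_iff _).2 (hblV _ (key g₀ hg₀))
    have h2 : V.valuation ((q / c) / g₀) ≤ 1 := (V.valuation_le_one_iff _).2 (hmin' _ hqJ)
    have h3 : V.valuation (g₀ / (q / c)) * V.valuation ((q / c) / g₀) = 1 := by
      rw [← map_mul, div_mul_div_cancel₀ hqc, div_self hg0, map_one]
    apply le_antisymm h1
    calc (1 : _) = V.valuation (g₀ / (q / c)) * V.valuation ((q / c) / g₀) := h3.symm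
      _ ≤ V.valuation (g₀ / (q / c)) * 1 := by gcongr
      _ = _ := mul_one _
  constructor
  · refine bl_le ((le_bl _ _ _).trans (le_locV _)) fun x hx => ?_
    refine ⟨x / (q / c), key x hx, g₀ / (q / c), key g₀ hg₀, hu, ?_⟩
    field_simp
  · refine bl_le ((le_bl _ _ _).trans (le_locV _)) fun g hg => ?_
    have hgJ : g / c ∈ Submodule.span R ((fun g => g / c) '' Q) :=
      Submodule.subset_span ⟨g, hg, rfl⟩
    refine ⟨(g / c) / g₀, mem_bl (Q := (Submodule.span R ((fun g => g / c) '' Q) : Set K)) _ _ hgJ,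
      (q / c) / g₀, mem_bl (Q := (Submodule.span R ((fun g => g / c) '' Q) : Set K)) _ _ hqJ,
      ?_, ?_⟩
    · rw [← inv_div, map_inv₀, hu, inv_one]
    · field_simp

/-- `RV V (P * Q)` is the blowing up of the ideal of `RV V P` generated by `Q / c`. -/
theorem RV_mul_ideal (hV : Ov k V) (hP : IsModel P) (hQ : IsModel Q) {c g₀ : K}
    (hc : c ≠ 0) (hg₀ : g₀ ∈ Submodule.span (RV V P) ((fun g => g / c) '' (Q : Set K)))
    (hg0 : g₀ ≠ 0)
    (hmin : ∀ x ∈ Submodule.span (RV V P) ((fun g => g / c) '' (Q : Set K)), x / g₀ ∈ V) :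
    RV V (P * Q) = locV V (bl (RV V P)
      (Submodule.span (RV V P) ((fun g => g / c) '' (Q : Set K)) : Set K) g₀) := by
  obtain ⟨f, hf⟩ := exists_isMin hV hP
  obtain ⟨q, hq⟩ := exists_isMin hV hQ
  obtain ⟨h1, h2⟩ := bl_le_locV (RV_le hV hP) hc hq.mem hq.ne hq.div hg₀ hg0 hmin
  rw [RV_mul_bl hf hq]
  exact locV_eq_of_le h2 h1

/-- `NV V (P * Q)` is the normalised blowing up of the ideal of `NV V P` generated by `Q / c`. -/
theorem NV_mul_ideal (hV : Ov k V) (hP : IsModel P) (hQ : IsModel Q) {c g₀ : K}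
    (hc : c ≠ 0) (hg₀ : g₀ ∈ Submodule.span (NV V P) ((fun g => g / c) '' (Q : Set K)))
    (hg0 : g₀ ≠ 0)
    (hmin : ∀ x ∈ Submodule.span (NV V P) ((fun g => g / c) '' (Q : Set K)), x / g₀ ∈ V) :
    NV V (P * Q) = locV V (ncl (bl (NV V P)
      (Submodule.span (NV V P) ((fun g => g / c) '' (Q : Set K)) : Set K) g₀)) := by
  obtain ⟨f, hf⟩ := exists_isMin hV hP
  obtain ⟨q, hq⟩ := exists_isMin hV hQ
  obtain ⟨h1, h2⟩ := bl_le_locV (NV_le hV hP) hc hq.mem hq.ne hq.div hg₀ hg0 hmin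
  rw [NV_mul_bl hf hq]
  exact locV_ncl_eq (h2.trans (locV_le_ncl _)) (h1.trans (locV_le_ncl _))

/-- An element of minimal value of the ideal generated by `Q / c`. -/
theorem exists_min_ideal {R : Subalgebra k K} (hR : ∀ a ∈ R, a ∈ V) (hq : IsMin V Q q) {c : K}
    (hc : c ≠ 0) : q / c ∈ Submodule.span R ((fun g => g / c) '' (Q : Set K)) ∧ q / c ≠ 0 ∧
      ∀ x ∈ Submodule.span R ((fun g => g / c) '' (Q : Set K)), x / (q / c) ∈ V := by
  refine ⟨Submodule.subset_span ⟨q, hq.mem, rfl⟩, div_ne_zero hq.ne hc, fun x hx => ?_⟩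
  induction hx using Submodule.span_induction with
  | mem x hx =>
    obtain ⟨g, hg, rfl⟩ := hx
    change (g / c) / (q / c) ∈ _
    rw [div_div_div_cancel_right₀ hc]
    exact hq.div g hg
  | zero => rw [zero_div]; exact V.zero_mem
  | add x y _ _ hx hy => rw [add_div]; exact V.add_mem _ _ hx hy
  | smul a x _ hx =>
    rw [Algebra.smul_def, mul_div_assoc]
    exact V.mul_mem _ _ (hR a a.2) hx

/-- The ideal generated by `Q / c` is principal in the local ring of the join. -/
theorem ideal_principal (hf : IsMin V P f) (hq : IsMin V Q q) {c : K} (hc : c ≠ 0) :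
    ∀ x ∈ Submodule.span (NV V P) ((fun g => g / c) '' (Q : Set K)),
      x / (q / c) ∈ NV V (P * Q) := by
  intro x hx
  rw [NV_mul_bl hf hq]
  induction hx using Submodule.span_induction with
  | mem x hx =>
    obtain ⟨g, hg, rfl⟩ := hx
    change (g / c) / (q / c) ∈ _
    rw [div_div_div_cancel_right₀ hc]
    exact le_locV_ncl _ (mem_bl _ _ hg)
  | zero => rw [zero_div]; exact Subalgebra.zero_mem _
  | add x y _ _ hx hy => rw [add_div]; exact Subalgebra.add_mem _ hx hy
  | smul a x _ hx =>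
    rw [Algebra.smul_def, mul_div_assoc]
    exact Subalgebra.mul_mem _ (le_locV_ncl _ (le_bl _ _ _ a.2)) hx

end Pool.Agent.TG
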