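import Pool.Agent.Lib.TG_h38.PFe

/-!
# Function fields of one variable: the degree of the poles, the product formula

Main results, for a function field of one variable `K / κ`, `κ` any field (`FF κ K`):
* `finite_support`: finitely many places with `v_P(x) ≠ 0`;
* `sum_poles`: `∑ max(0, -v_P(x)) deg P = [K : κ(x)]`, `x` transcendental;
* `sum_zeros`: `∑ max(0, v_P(x)) deg P = [K : κ(x)]`, `x` transcendental;
* `product_formula`: `∑ v_P(x) deg P = 0`, `x ≠ 0`.
-/

set_option autoImplicit false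

open Polynomial IntermediateField Module

namespace Pool.Agent.PF

universe u w

variable {κ : Type u} {K : Type w} [Field κ] [Field K] [Algebra κ K]

theorem transcendental_inv {x : K} (hx : Transcendental κ x) : Transcendental κ x⁻¹ :=
  fun h => hx (IsAlgebraic.inv_iff.1 h)

theorem dg_eq_sum (E : Pl κ K →₀ ℕ) (s : Finset (Pl κ K)) (h : ∀ P, E P ≠ 0 → P ∈ s) :
    dg E = ∑ P ∈ s, E P * P.deg :=
  Finsupp.sum_of_support_subset E (fun P hP => h P (Finsupp.mem_support_iff.1 hP))
    (fun P n => n * P.deg) fun _ _ => zero_mul _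

/-- The zeros of `x` in a finite set of places. -/
theorem sum_le_finrank (hF : FF κ K) {x : K} (hx : Transcendental κ x) (T : Finset (Pl κ K))
    (hT : ∀ P ∈ T, 0 ≤ P.v x) : ∑ P ∈ T, (P.v x).toNat * P.deg ≤ finrank κ⟮x⟯ K := by
  classical
  have hfd := hF.fin x hx
  let E : Pl κ K →₀ ℕ := Finsupp.onFinset T (fun P => if P ∈ T then (P.v x).toNat else 0)
    (fun P h => by by_contra h'; rw [if_neg h'] at h; exact h rfl)
  have hE : ∀ P, E P ≠ 0 → P ∈ T := fun P h => by
    by_contra h'
    exact h (if_neg h')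
  have hEP : ∀ P ∈ T, (E P : ℤ) = P.v x := fun P hP => by
    have h1 : E P = (P.v x).toNat := if_pos hP
    rw [h1, Int.toNat_of_nonneg (hT P hP)]
  have h1 := rd_addE_eq hF T E 0 hE
  have h2 : dg E = ∑ P ∈ T, (P.v x).toNat * P.deg := by
    rw [dg_eq_sum E T hE]
    refine Finset.sum_congr rfl fun P hP => ?_
    have h3 : E P = (P.v x).toNat := if_pos hP
    rw [h3]
  rw [← h2, ← h1]
  refine (rd_mul_le (R := M (T : Set (Pl κ K)) 0) (N := M (T : Set (Pl κ K)) (addE 0 E)) hx
    (fun z hz P hP => ?_) fun z hz P hP => ?_).2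
  · have h3 := Pl.Ge.mul (P := P) (Pl.ge_self x) (hz P hP)
    exact Pl.Ge.mono (by
      have := hT P hP
      change (0 : ℤ) ≤ P.v x + 0
      omega) h3
  · have h3 := Pl.Ge.mul (P := P) (Pl.ge_self x) (hz P hP)
    refine Pl.Ge.mono ?_ h3
    change (0 : ℤ) + E P ≤ P.v x + 0
    rw [hEP P hP]
    omega

theorem finite_zeros (hF : FF κ K) {x : K} (hx : Transcendental κ x) :
    {P : Pl κ K | 0 < P.v x}.Finite := by
  classical
  by_contra hcon
  obtain ⟨T, hT, hcard⟩ := Set.Infinite.exists_subset_card_eq hcon (finrank κ⟮x⟯ K + 1)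
  have h1 := sum_le_finrank hF hx T fun P hP => (show 0 < P.v x from hT hP).le
  have h2 : T.card ≤ ∑ P ∈ T, (P.v x).toNat * P.deg := by
    rw [Finset.card_eq_sum_ones]
    refine Finset.sum_le_sum fun P hP => ?_
    have h3 : 0 < P.v x := hT hP
    have h4 := P.deg_pos hF
    have h5 : 0 < (P.v x).toNat := by omega
    exact Nat.mul_pos h5 h4
  omega

/-- Finitely many places with `v_P(x) ≠ 0`. -/
theorem finite_support (hF : FF κ K) (x : K) : {P : Pl κ K | P.v x ≠ 0}.Finite := by
  by_cases hx : Transcendental κ x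
  · refine ((finite_zeros hF hx).union (finite_zeros hF (transcendental_inv hx))).subset ?_
    intro P hP
    have hP' : P.v x ≠ 0 := hP
    rcases lt_or_gt_of_ne hP' with h | h
    · right
      change 0 < P.v x⁻¹
      rw [P.map_inv]
      omega
    · left; exact h
  · convert Set.finite_empty
    rw [Set.eq_empty_iff_forall_notMem]
    intro P hP
    exact hx (Pl.transcendental_of_ne hP)

theorem finite_poles (hF : FF κ K) (x : K) : {P : Pl κ K | P.v x < 0}.Finite :=
  (finite_support hF x).subset fun P hP => (show P.v x < 0 from hP).ne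

/-- The divisor of the poles. -/
noncomputable def poles (hF : FF κ K) (x : K) : Pl κ K →₀ ℕ :=
  Finsupp.onFinset (finite_poles hF x).toFinset (fun P => (-P.v x).toNat) fun P hP => by
    rw [Set.Finite.mem_toFinset]
    change P.v x < 0
    omega

theorem poles_apply (hF : FF κ K) (x : K) (P : Pl κ K) : poles hF x P = (-P.v x).toNat := rfl

/-- The functions without poles. -/
theorem finrank_M_zero (hF : FF κ K) : ∃ c : ℕ, RF (M (Set.univ : Set (Pl κ K)) 0) ⊥ ∧
    rd (M (Set.univ : Set (Pl κ K)) 0) ⊥ ≤ c := by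
  obtain ⟨x, hx⟩ := hF.ex
  obtain ⟨P, -⟩ := exists_zero hF hx
  have h0 := Pl.rf_zero_one hF P
  have hA : M (Set.univ : Set (Pl κ K)) 0 ≤ P.L 0 := fun x hx => hx P trivial
  have hAB : M (Set.univ : Set (Pl κ K)) 0 ⊓ P.L 1 ≤ ⊥ := by
    rintro z ⟨hz, hz'⟩
    rw [Submodule.mem_bot]
    by_contra hz0
    have h1 : 1 ≤ P.v z := hz' hz0
    have h2 : Transcendental κ z := Pl.transcendental_of_ne (P := P) (by omega)
    obtain ⟨Q, hQ⟩ := exists_zero hF (transcendental_inv h2)
    rw [Q.map_inv] at hQ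
    have h3 : (0 : ℤ) ≤ Q.v z := hz Q trivial hz0
    omega
  exact ⟨_, RF.of_le bot_le hA hAB h0, rd_le_of_le bot_le hA hAB h0⟩

/-- The dimension of `L(E)`. -/
theorem finrank_M_le (hF : FF κ K) : ∃ c : ℕ, ∀ E : Pl κ K →₀ ℕ,
    FiniteDimensional κ (M (Set.univ : Set (Pl κ K)) fun P => -(E P : ℤ)) ∧
    finrank κ (M (Set.univ : Set (Pl κ K)) fun P => -(E P : ℤ)) ≤ c + dg E := by
  obtain ⟨c, h1, h2⟩ := finrank_M_zero hF
  refine ⟨c, fun E => ?_⟩
  obtain ⟨h3, h4⟩ := rd_addE_le hF (Set.univ : Set (Pl κ K)) E (fun P => -(E P : ℤ))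
    fun _ _ => trivial
  have h5 : addE (fun P : Pl κ K => -(E P : ℤ)) E = 0 := by
    funext P
    simp [addE]
  rw [h5] at h3 h4
  have h6 : M (Set.univ : Set (Pl κ K)) 0 ≤ M Set.univ fun P => -(E P : ℤ) := by
    refine M_anti _ fun P => ?_
    simp
  have h7 := RF.trans bot_le h6 h3 h1
  refine ⟨RF_bot.1 h7, ?_⟩
  rw [← rd_bot, rd_add bot_le h6 h7, add_comm]
  exact add_le_add h2 h4

/-- The products of the powers of a transcendental element with the elements of a basis. -/
theorem linInd_pow_mul {x : K} (hx : Transcendental κ x) {n : ℕ} (b : Fin n → K)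
    (hb : LinearIndependent κ⟮x⟯ b) (l : ℕ) :
    LinearIndependent κ (fun p : Fin l × Fin n => x ^ (p.1 : ℕ) * b p.2) := by
  rw [Fintype.linearIndependent_iff]
  intro g hg
  rw [Fintype.linearIndependent_iff] at hb
  have h1 : ∑ i : Fin n, (∑ j : Fin l, algebraMap κ κ⟮x⟯ (g (j, i)) *
      (AdjoinSimple.gen κ x) ^ (j : ℕ)) • b i = 0 := by
    rw [← hg, Fintype.sum_prod_type_right]
    refine Finset.sum_congr rfl fun i _ => ?_
    rw [Finset.sum_smul]
    refine Finset.sum_congr rfl fun j _ => ?_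
    rw [Algebra.smul_def, map_mul, map_pow, AdjoinSimple.algebraMap_gen,
      ← IsScalarTower.algebraMap_apply, Algebra.smul_def, mul_assoc]
  rintro ⟨j, i⟩
  have h2 := hb _ h1 i
  have h3 : aeval x (∑ j : Fin l, C (g (j, i)) * X ^ (j : ℕ) : κ[X]) = 0 := by
    have h4 := congrArg (algebraMap κ⟮x⟯ K) h2
    rw [map_sum, map_zero] at h4
    rw [map_sum, ← h4]
    refine Finset.sum_congr rfl fun j _ => ?_
    rw [map_mul, aeval_C, map_pow, aeval_X, map_mul, map_pow,
      ← IsScalarTower.algebraMap_apply, AdjoinSimple.algebraMap_gen]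
  have h4 := (transcendental_iff.1 hx) _ h3
  have h5 := congrArg (fun p : κ[X] => p.coeff (j : ℕ)) h4
  simp only [finsetSum_coeff, coeff_C_mul, coeff_X_pow, coeff_zero] at h5
  rw [Finset.sum_eq_single j] at h5
  · simpa using h5
  · intro i' _ hij
    rw [if_neg, mul_zero]
    intro h
    exact hij (Fin.ext h.symm)
  · intro h; exact absurd (Finset.mem_univ j) h

/-- The degree of the poles is the degree. -/
theorem finrank_le_dg_poles (hF : FF κ K) {x : K} (hx : Transcendental κ x) :
    finrank κ⟮x⟯ K ≤ dg (poles hF x) := by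
  classical
  have hfd := hF.fin x hx
  set n := finrank κ⟮x⟯ K with hn
  let b : Basis (Fin n) κ⟮x⟯ K := Module.finBasis κ⟮x⟯ K
  obtain ⟨c, hc⟩ := finrank_M_le hF
  set C : Pl κ K →₀ ℕ := ∑ i, poles hF (b i) with hC
  have key : ∀ l : ℕ, (l + 1) * n ≤ c + (l * dg (poles hF x) + dg C) := by
    intro l
    obtain ⟨hfin, hle⟩ := hc (l • poles hF x + C)
    rw [dg_add, dg_nsmul] at hle
    refine le_trans ?_ hle
    have hind : LinearIndependent κ (fun p : Fin (l + 1) × Fin n => x ^ (p.1 : ℕ) * b p.2) :=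
      linInd_pow_mul hx b b.linearIndependent (l + 1)
    have hmem : ∀ p : Fin (l + 1) × Fin n, x ^ (p.1 : ℕ) * b p.2 ∈
        M (Set.univ : Set (Pl κ K)) fun P => -((l • poles hF x + C) P : ℤ) := by
      rintro ⟨j, i⟩ P -
      refine Pl.Ge.mono ?_ (Pl.Ge.mul (Pl.ge_self (x ^ (j : ℕ))) (Pl.ge_self (b i)))
      change -(((l • poles hF x + C) P : ℕ) : ℤ) ≤ _
      rw [P.map_pow, Finsupp.add_apply, Finsupp.smul_apply, poles_apply]
      have h2 : (-P.v (b i)).toNat ≤ C P := by
        rw [hC, Finsupp.finsetSum_apply]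
        exact Finset.single_le_sum (f := fun i => poles hF (b i) P) (fun _ _ => Nat.zero_le _)
          (Finset.mem_univ i)
      have h3 : (j : ℕ) ≤ l := Nat.lt_succ_iff.1 j.2
      have h4 : -(P.v x) ≤ ((-P.v x).toNat : ℤ) := Int.self_le_toNat _
      have h5 : -(P.v (b i)) ≤ ((-P.v (b i)).toNat : ℤ) := Int.self_le_toNat _
      have h6 : ((-P.v (b i)).toNat : ℤ) ≤ (C P : ℤ) := by exact_mod_cast h2
      have h7 : -((j : ℕ) * P.v x) ≤ (l : ℤ) * ((-P.v x).toNat : ℤ) := by
        have h8 : -((j : ℕ) * P.v x) ≤ ((j : ℕ) : ℤ) * ((-P.v x).toNat : ℤ) := by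
          have : (0 : ℤ) ≤ ((j : ℕ) : ℤ) := by positivity
          nlinarith
        refine h8.trans ?_
        have h9 : ((j : ℕ) : ℤ) ≤ (l : ℤ) := by exact_mod_cast h3
        have h10 : (0 : ℤ) ≤ ((-P.v x).toNat : ℤ) := by positivity
        exact mul_le_mul_of_nonneg_right h9 h10
      rw [smul_eq_mul]
      push_cast
      linarith
    have hind' : LinearIndependent κ (fun p : Fin (l + 1) × Fin n =>
        (⟨_, hmem p⟩ : M (Set.univ : Set (Pl κ K)) fun P => -((l • poles hF x + C) P : ℤ))) :=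
      LinearIndependent.of_comp (Submodule.subtype _) hind
    have := hind'.fintype_card_le_finrank
    rwa [Fintype.card_prod, Fintype.card_fin, Fintype.card_fin] at this
  by_contra hcon
  push Not at hcon
  obtain ⟨m, hm⟩ := Nat.exists_eq_add_of_lt hcon
  have h1 := key (c + dg C + 1)
  rw [hm] at h1
  nlinarith

/-- The sum over the poles, in the form of `poles`. -/
theorem dg_poles (hF : FF κ K) {x : K} (hx : Transcendental κ x) :
    dg (poles hF x) = finrank κ⟮x⟯ K := by
  refine le_antisymm ?_ (finrank_le_dg_poles hF hx)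
  have h1 := sum_le_finrank hF (transcendental_inv hx) (finite_poles hF x).toFinset
    (fun P hP => by
      rw [Set.Finite.mem_toFinset] at hP
      have : P.v x < 0 := hP
      rw [P.map_inv]
      omega)
  have h2 : κ⟮x⁻¹⟯ = κ⟮x⟯ := by
    apply le_antisymm
    · rw [adjoin_simple_le_iff]
      exact inv_mem (mem_adjoin_simple_self κ x)
    · rw [adjoin_simple_le_iff]
      have := inv_mem (mem_adjoin_simple_self κ x⁻¹)
      rwa [inv_inv] at this
  rw [h2] at h1
  refine le_trans (le_of_eq ?_) h1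
  rw [dg_eq_sum (poles hF x) (finite_poles hF x).toFinset fun P hP => ?_]
  · refine Finset.sum_congr rfl fun P _ => ?_
    rw [poles_apply, P.map_inv]
  · rw [Set.Finite.mem_toFinset]
    rw [poles_apply] at hP
    change P.v x < 0
    omega

/-- **The degree of the poles.** -/
theorem sum_poles (hF : FF κ K) {x : K} (hx : Transcendental κ x) :
    ∑ᶠ P : Pl κ K, (-P.v x).toNat * P.deg = finrank κ⟮x⟯ K := by
  rw [← dg_poles hF hx]
  unfold dg
  rw [finsum_eq_sum_of_support_subset (s := (poles hF x).support)]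
  · rfl
  · intro P hP
    rw [Function.mem_support] at hP
    rw [Finset.mem_coe, Finsupp.mem_support_iff, poles_apply]
    exact left_ne_zero_of_mul hP

/-- **The degree of the zeros.** -/
theorem sum_zeros (hF : FF κ K) {x : K} (hx : Transcendental κ x) :
    ∑ᶠ P : Pl κ K, (P.v x).toNat * P.deg = finrank κ⟮x⟯ K := by
  have h1 := sum_poles hF (transcendental_inv hx)
  have h2 : κ⟮x⁻¹⟯ = κ⟮x⟯ := by
    apply le_antisymm
    · rw [adjoin_simple_le_iff]
      exact inv_mem (mem_adjoin_simple_self κ x)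
    · rw [adjoin_simple_le_iff]
      have := inv_mem (mem_adjoin_simple_self κ x⁻¹)
      rwa [inv_inv] at this
  rw [h2] at h1
  rw [← h1]
  refine finsum_congr fun P => ?_
  rw [P.map_inv, neg_neg]

/-- **The product formula.** -/
theorem product_formula (hF : FF κ K) (x : K) :
    ∑ᶠ P : Pl κ K, P.v x * (P.deg : ℤ) = 0 := by
  by_cases hx : Transcendental κ x
  · set T := (finite_support hF x).toFinset with hT
    have h1 : ∀ f : Pl κ K → ℤ, (∀ P, P.v x = 0 → f P = 0) → ∑ᶠ P, f P = ∑ P ∈ T, f P := by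
      intro f hf
      apply finsum_eq_sum_of_support_subset
      intro P hP
      rw [Function.mem_support] at hP
      rw [hT, Set.Finite.coe_toFinset]
      exact fun h => hP (hf P h)
    have h2 : ∀ f : Pl κ K → ℕ, (∀ P, P.v x = 0 → f P = 0) → ∑ᶠ P, f P = ∑ P ∈ T, f P := by
      intro f hf
      apply finsum_eq_sum_of_support_subset
      intro P hP
      rw [Function.mem_support] at hP
      rw [hT, Set.Finite.coe_toFinset]
      exact fun h => hP (hf P h)
    have hp := sum_poles hF hx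
    have hz := sum_zeros hF hx
    rw [h2 _ (fun P h => by rw [h]; simp)] at hp hz
    rw [h1 _ (fun P h => by rw [h, zero_mul])]
    have h3 : ∑ P ∈ T, P.v x * (P.deg : ℤ) =
        ((∑ P ∈ T, (P.v x).toNat * P.deg : ℕ) : ℤ) -
          ((∑ P ∈ T, (-P.v x).toNat * P.deg : ℕ) : ℤ) := by
      push_cast
      rw [← Finset.sum_sub_distrib]
      refine Finset.sum_congr rfl fun P _ => ?_
      rw [← sub_mul]
      congr 1
      omega
    rw [h3, hp, hz, sub_self]
  · refine finsum_eq_zero_of_forall_eq_zero fun P => ?_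
    have : P.v x = 0 := by
      by_contra h
      exact hx (Pl.transcendental_of_ne h)
    rw [this, zero_mul]

end Pool.Agent.PF
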