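import Mathlib

/-!
# Function fields of one variable over an arbitrary field: places, weak approximation

`Pl κ K` is the type of the normalised discrete valuations of `K` which are trivial on `κ`.
-/

set_option autoImplicit false

open Polynomial IntermediateField

namespace Pool.Agent.PF

universe u w

/-- A place of `K / κ`: a normalised discrete valuation of `K`, trivial on `κ` (the value of `0`
is `0` by convention). -/
structure Pl (κ : Type u) (K : Type w) [Field κ] [Field K] [Algebra κ K] where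
  v : K → ℤ
  zero : v 0 = 0
  mul : ∀ x y, x ≠ 0 → y ≠ 0 → v (x * y) = v x + v y
  add : ∀ x y, x ≠ 0 → y ≠ 0 → x + y ≠ 0 → min (v x) (v y) ≤ v (x + y)
  triv : ∀ c : κ, c ≠ 0 → v (algebraMap κ K c) = 0
  unif : ∃ t, t ≠ 0 ∧ v t = 1

variable {κ : Type u} {K : Type w} [Field κ] [Field K] [Algebra κ K]

namespace Pl

variable (P : Pl κ K)

@[ext] theorem ext' {P Q : Pl κ K} (h : ∀ x, P.v x = Q.v x) : P = Q := by
  cases P; cases Q; congr; funext x; exact h x

theorem map_one : P.v 1 = 0 := by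
  have := P.mul 1 1 one_ne_zero one_ne_zero
  rw [mul_one] at this
  omega

theorem map_neg_one : P.v (-1) = 0 := by
  have h := P.mul (-1) (-1) (neg_ne_zero.2 one_ne_zero) (neg_ne_zero.2 one_ne_zero)
  rw [neg_mul_neg, mul_one, P.map_one] at h
  omega

theorem map_neg (x : K) : P.v (-x) = P.v x := by
  by_cases hx : x = 0
  · rw [hx, neg_zero]
  have h := P.mul (-1) x (neg_ne_zero.2 one_ne_zero) hx
  rw [neg_one_mul, P.map_neg_one, zero_add] at h
  exact h

theorem map_inv (x : K) : P.v x⁻¹ = -P.v x := by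
  by_cases hx : x = 0
  · rw [hx, inv_zero, P.zero, neg_zero]
  have h := P.mul x x⁻¹ hx (inv_ne_zero hx)
  rw [mul_inv_cancel₀ hx, P.map_one] at h
  omega

theorem map_div {x y : K} (hx : x ≠ 0) (hy : y ≠ 0) : P.v (x / y) = P.v x - P.v y := by
  rw [div_eq_mul_inv, P.mul x y⁻¹ hx (inv_ne_zero hy), P.map_inv]
  ring

theorem map_pow (x : K) (m : ℕ) : P.v (x ^ m) = m * P.v x := by
  by_cases hx : x = 0
  · rcases Nat.eq_zero_or_pos m with rfl | hm
    · rw [pow_zero, P.map_one]; simp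
    · rw [hx, zero_pow hm.ne', P.zero]; simp
  induction m with
  | zero => rw [pow_zero, P.map_one]; simp
  | succ m ih =>
    rw [pow_succ, P.mul _ _ (pow_ne_zero m hx) hx, ih]
    push_cast
    ring

theorem map_zpow (x : K) (m : ℤ) : P.v (x ^ m) = m * P.v x := by
  cases m with
  | ofNat m => simpa using P.map_pow x m
  | negSucc m =>
    rw [zpow_negSucc, P.map_inv, P.map_pow, Int.negSucc_eq]
    push_cast
    ring

theorem map_prod {ι : Type*} (s : Finset ι) (f : ι → K) (hf : ∀ i ∈ s, f i ≠ 0) :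
    P.v (∏ i ∈ s, f i) = ∑ i ∈ s, P.v (f i) := by
  classical
  induction s using Finset.induction_on with
  | empty => simp [P.map_one]
  | insert a s ha ih =>
    rw [Finset.prod_insert ha, Finset.sum_insert ha,
      P.mul _ _ (hf a (Finset.mem_insert_self a s))
        (Finset.prod_ne_zero_iff.mpr fun i hi => hf i (Finset.mem_insert_of_mem hi)),
      ih fun i hi => hf i (Finset.mem_insert_of_mem hi)]

theorem add_of_lt {x y : K} (hx : x ≠ 0) (hy : y ≠ 0) (h : P.v x < P.v y) :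
    x + y ≠ 0 ∧ P.v (x + y) = P.v x := by
  have hne : x + y ≠ 0 := by
    intro h0
    rw [eq_neg_of_add_eq_zero_left h0, P.map_neg y] at h
    exact lt_irrefl _ h
  refine ⟨hne, le_antisymm ?_ ?_⟩
  · by_contra hcon
    push Not at hcon
    have h1 := P.add (x + y) (-y) hne (neg_ne_zero.mpr hy) (by simpa using hx)
    rw [P.map_neg y, add_neg_cancel_right] at h1
    have : P.v x < min (P.v (x + y)) (P.v y) := lt_min hcon h
    omega
  · have := P.add x y hx hy hne
    rwa [min_eq_left h.le] at this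

/-- `x = 0` or `v x ≥ a`. -/
def Ge (a : ℤ) (x : K) : Prop := x ≠ 0 → a ≤ P.v x

variable {P}

theorem Ge.zero {a : ℤ} : P.Ge a 0 := fun h => absurd rfl h

theorem Ge.mono {a b : ℤ} (h : b ≤ a) {x : K} (hx : P.Ge a x) : P.Ge b x :=
  fun h0 => h.trans (hx h0)

theorem Ge.add {a : ℤ} {x y : K} (hx : P.Ge a x) (hy : P.Ge a y) : P.Ge a (x + y) := by
  intro hxy
  by_cases h1 : x = 0
  · subst h1
    rw [zero_add] at hxy ⊢
    exact hy hxy
  by_cases h2 : y = 0
  · subst h2
    rw [add_zero] at hxy ⊢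
    exact hx hxy
  exact (le_min (hx h1) (hy h2)).trans (P.add x y h1 h2 hxy)

theorem Ge.mul {a b : ℤ} {x y : K} (hx : P.Ge a x) (hy : P.Ge b y) : P.Ge (a + b) (x * y) := by
  intro h
  have h1 := left_ne_zero_of_mul h
  have h2 := right_ne_zero_of_mul h
  rw [P.mul x y h1 h2]
  exact add_le_add (hx h1) (hy h2)

theorem Ge.neg {a : ℤ} {x : K} (hx : P.Ge a x) : P.Ge a (-x) := by
  intro h
  rw [P.map_neg]
  exact hx (by simpa using h)

theorem Ge.sub {a : ℤ} {x y : K} (hx : P.Ge a x) (hy : P.Ge a y) : P.Ge a (x - y) := by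
  rw [sub_eq_add_neg]; exact hx.add hy.neg

theorem Ge.sum {ι : Type*} {a : ℤ} (s : Finset ι) (f : ι → K) (hf : ∀ i ∈ s, P.Ge a (f i)) :
    P.Ge a (∑ i ∈ s, f i) := by
  classical
  induction s using Finset.induction_on with
  | empty => simpa using Ge.zero
  | insert j s hj ih =>
    rw [Finset.sum_insert hj]
    exact (hf j (Finset.mem_insert_self j s)).add
      (ih fun i hi => hf i (Finset.mem_insert_of_mem hi))

theorem ge_self (x : K) : P.Ge (P.v x) x := fun _ => le_rfl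

theorem ge_algebraMap (c : κ) : P.Ge 0 (algebraMap κ K c) := by
  intro h
  rw [P.triv c (by rintro rfl; exact h (_root_.map_zero _))]

variable (P) in
/-- `{x | v x ≥ a}` as a `κ`-subspace. -/
def L (a : ℤ) : Submodule κ K where
  carrier := {x | P.Ge a x}
  add_mem' := fun hx hy => Ge.add hx hy
  zero_mem' := Ge.zero
  smul_mem' := fun c x hx => by
    change P.Ge a (c • x)
    rw [Algebra.smul_def, ← zero_add a]
    exact Ge.mul (ge_algebraMap c) hx

theorem mem_L {a : ℤ} {x : K} : x ∈ P.L a ↔ P.Ge a x := Iff.rfl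

theorem L_anti {a b : ℤ} (h : a ≤ b) : P.L b ≤ P.L a := fun _ hx => Ge.mono h hx

/-! ### Weak approximation -/

theorem eq_of_ge {P Q : Pl κ K} (h : ∀ x, 0 ≤ P.v x → 0 ≤ Q.v x) : P = Q := by
  obtain ⟨t, ht0, ht⟩ := P.unif
  obtain ⟨s, hs0, hs⟩ := Q.unif
  have h1 : ∀ x, P.v x = 0 → Q.v x = 0 := by
    intro x hx
    have h2 := h x hx.ge
    have h3 := h x⁻¹ (by rw [P.map_inv, hx]; simp)
    rw [Q.map_inv] at h3
    omega
  have h2 : ∀ x, x ≠ 0 → Q.v x = P.v x * Q.v t := by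
    intro x hx
    have h3 := h1 (x / t ^ P.v x) (by
      rw [P.map_div hx (zpow_ne_zero _ ht0), P.map_zpow, ht]; ring)
    rw [Q.map_div hx (zpow_ne_zero _ ht0), Q.map_zpow] at h3
    omega
  have h3 : 0 ≤ Q.v t := h t (by omega)
  have h4 : Q.v t = 1 := by
    have h5 := h2 s hs0
    rw [hs] at h5
    exact Int.eq_one_of_mul_eq_one_left h3 h5.symm
  apply ext'
  intro x
  by_cases hx : x = 0
  · rw [hx, P.zero, Q.zero]
  · rw [h2 x hx, h4, mul_one]

theorem exists_sep {P Q : Pl κ K} (h : P ≠ Q) : ∃ y, y ≠ 0 ∧ 0 < P.v y ∧ Q.v y < 0 := by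
  obtain ⟨a, ha, ha'⟩ : ∃ a, 0 ≤ P.v a ∧ Q.v a < 0 := by
    by_contra hcon
    push Not at hcon
    exact h (eq_of_ge hcon)
  obtain ⟨b, hb, hb'⟩ : ∃ b, 0 ≤ Q.v b ∧ P.v b < 0 := by
    by_contra hcon
    push Not at hcon
    exact h (eq_of_ge hcon).symm
  have ha0 : a ≠ 0 := by rintro rfl; rw [Q.zero] at ha'; exact lt_irrefl _ ha'
  have hb0 : b ≠ 0 := by rintro rfl; rw [P.zero] at hb'; exact lt_irrefl _ hb'
  refine ⟨a / b, div_ne_zero ha0 hb0, ?_, ?_⟩
  · rw [P.map_div ha0 hb0]; omega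
  · rw [Q.map_div ha0 hb0]; omega

theorem exists_sep_finset (P : Pl κ K) (T : Finset (Pl κ K)) (hP : P ∉ T) :
    ∃ y, y ≠ 0 ∧ 0 < P.v y ∧ ∀ Q ∈ T, Q.v y < 0 := by
  classical
  induction T using Finset.induction_on with
  | empty =>
    obtain ⟨t, ht0, ht⟩ := P.unif
    exact ⟨t, ht0, by omega, fun Q hQ => by simp at hQ⟩
  | insert R T hR ih =>
    obtain ⟨y, hy0, hy, hyT⟩ := ih fun h => hP (Finset.mem_insert_of_mem h)
    have hPR : P ≠ R := fun h => hP (h ▸ Finset.mem_insert_self _ _)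
    obtain ⟨z, hz0, hz, hzR⟩ := exists_sep hPR
    rcases lt_or_ge (R.v y) 0 with h1 | h1
    · exact ⟨y, hy0, hy, fun Q hQ => by
        rcases Finset.mem_insert.1 hQ with rfl | hQ
        · exact h1
        · exact hyT Q hQ⟩
    -- `y + z ^ r`, `r` large
    obtain ⟨r, hr⟩ : ∃ r : ℕ, 0 < r ∧ ∀ Q ∈ T, |Q.v y| < r := by
      refine ⟨∑ Q ∈ T, (Q.v y).natAbs + 1, Nat.succ_pos _, fun Q hQ => ?_⟩
      have h2 : (Q.v y).natAbs ≤ ∑ Q ∈ T, (Q.v y).natAbs :=
        Finset.single_le_sum (f := fun Q => (Q.v y).natAbs) (fun _ _ => Nat.zero_le _) hQ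
      rw [Int.abs_eq_natAbs]
      exact_mod_cast Nat.lt_succ_of_le h2
    obtain ⟨hr0, hrT⟩ := hr
    have hzr : z ^ r ≠ 0 := pow_ne_zero _ hz0
    have hR1 : R.v (z ^ r) < 0 := by
      rw [R.map_pow]
      have : (0 : ℤ) < r := by exact_mod_cast hr0
      nlinarith
    have hsum := R.add_of_lt hzr hy0 (by omega)
    rw [add_comm] at hsum
    refine ⟨y + z ^ r, hsum.1, ?_, fun Q hQ => ?_⟩
    · have h2 := P.add y (z ^ r) hy0 hzr hsum.1
      have h3 : 0 < P.v (z ^ r) := by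
        rw [P.map_pow]
        have : (0 : ℤ) < r := by exact_mod_cast hr0
        nlinarith
      exact lt_of_lt_of_le (lt_min hy h3) h2
    · rcases Finset.mem_insert.1 hQ with rfl | hQ
      · rw [hsum.2]; exact hR1
      · have hQy := hyT Q hQ
        have hrQ := hrT Q hQ
        rw [abs_lt] at hrQ
        rcases lt_trichotomy (Q.v z) 0 with h3 | h3 | h3
        · -- `v (z ^ r) < v y`
          have h4 : Q.v (z ^ r) < Q.v y := by
            rw [Q.map_pow]
            have : (r : ℤ) * Q.v z ≤ -r := by nlinarith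
            omega
          have h5 := Q.add_of_lt hzr hy0 h4
          rw [add_comm] at h5
          rw [h5.2]
          omega
        · have h4 : Q.v y < Q.v (z ^ r) := by rw [Q.map_pow, h3]; simpa using hQy
          rw [(Q.add_of_lt hy0 hzr h4).2]
          exact hQy
        · have h4 : Q.v y < Q.v (z ^ r) := by
            rw [Q.map_pow]
            have : (r : ℤ) ≤ r * Q.v z := by nlinarith
            omega
          rw [(Q.add_of_lt hy0 hzr h4).2]
          exact hQy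

theorem exists_unit_finset (P : Pl κ K) (T : Finset (Pl κ K)) (hP : P ∉ T) (M : ℤ) :
    ∃ e, P.Ge M (1 - e) ∧ ∀ Q ∈ T, Q.Ge M e := by
  obtain ⟨y, hy0, hy, hyT⟩ := exists_sep_finset P T hP
  set N : ℕ := M.toNat + 1 with hN
  have hNM : M ≤ N := by omega
  have hyN : y ^ N ≠ 0 := pow_ne_zero _ hy0
  have h1 : 0 < P.v (y ^ N) := by
    rw [P.map_pow]
    have : (0 : ℤ) < N := by omega
    nlinarith
  have h2 := P.add_of_lt one_ne_zero hyN (by rw [P.map_one]; exact h1)
  rw [P.map_one] at h2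
  refine ⟨(1 + y ^ N)⁻¹, ?_, fun Q hQ => ?_⟩
  · have h3 : 1 - (1 + y ^ N)⁻¹ = y ^ N / (1 + y ^ N) := by
      field_simp [h2.1]
      ring
    rw [h3]
    intro _
    rw [P.map_div hyN h2.1, h2.2, P.map_pow]
    have : (N : ℤ) ≤ N * P.v y := by nlinarith
    omega
  · intro _
    have h4 : Q.v (y ^ N) ≤ -N := by
      rw [Q.map_pow]
      have := hyT Q hQ
      nlinarith
    have h5 := Q.add_of_lt hyN one_ne_zero (by rw [Q.map_one]; omega)
    rw [add_comm] at h5
    rw [Q.map_inv, h5.2]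
    omega

/-- Weak approximation. -/
theorem exists_approx (T : Finset (Pl κ K)) (x : Pl κ K → K) (M : ℤ) :
    ∃ z, ∀ P ∈ T, P.Ge M (z - x P) := by
  classical
  -- a large `N`
  obtain ⟨N, hN⟩ : ∃ N : ℤ, 0 ≤ N ∧ ∀ P ∈ T, ∀ Q ∈ T, M ≤ N + P.v (x Q) := by
    refine ⟨|M| + ∑ P ∈ T, ∑ Q ∈ T, |P.v (x Q)|, by positivity, fun P hP Q hQ => ?_⟩
    have h1 : |P.v (x Q)| ≤ ∑ Q ∈ T, |P.v (x Q)| :=
      Finset.single_le_sum (f := fun Q => |P.v (x Q)|) (fun _ _ => abs_nonneg _) hQ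
    have h2 : ∑ Q ∈ T, |P.v (x Q)| ≤ ∑ P ∈ T, ∑ Q ∈ T, |P.v (x Q)| :=
      Finset.single_le_sum (f := fun P => ∑ Q ∈ T, |P.v (x Q)|)
        (fun _ _ => Finset.sum_nonneg fun _ _ => abs_nonneg _) hP
    have h3 := neg_abs_le (P.v (x Q))
    have h4 := le_abs_self M
    linarith
  obtain ⟨-, hN⟩ := hN
  choose e he1 he2 using fun P : Pl κ K => exists_unit_finset P (T.erase P)
    (Finset.notMem_erase P T) N
  refine ⟨∑ Q ∈ T, e Q * x Q, fun P hP => ?_⟩
  rw [← Finset.add_sum_erase T _ hP]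
  have h1 : e P * x P + ∑ Q ∈ T.erase P, e Q * x Q - x P =
      -((1 - e P) * x P) + ∑ Q ∈ T.erase P, e Q * x Q := by ring
  rw [h1]
  refine Ge.add (Ge.neg ?_) (Ge.sum _ _ fun Q hQ => ?_)
  · exact Ge.mono (hN P hP P hP) (Ge.mul (he1 P) (ge_self _))
  · have hQ' := Finset.mem_of_mem_erase hQ
    have hne := Finset.ne_of_mem_erase hQ
    exact Ge.mono (hN P hP Q hQ') (Ge.mul (he2 Q P (Finset.mem_erase.2 ⟨hne.symm, hP⟩))
      (ge_self _))

end Pl

end Pool.Agent.PF
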