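import Mathlib

/-!
# Relative dimensions of subspaces
-/

set_option autoImplicit false

namespace Pool.Agent.PF

open Submodule Module

universe u w

variable {κ : Type u} {E : Type w} [Field κ] [AddCommGroup E] [Module κ E]

/-- `A / (A ⊓ B)`, as a subspace of `E / B`. -/
def Qt (A B : Submodule κ E) : Submodule κ (E ⧸ B) := A.map B.mkQ

/-- `A / (A ⊓ B)` is finite dimensional. -/
def RF (A B : Submodule κ E) : Prop := FiniteDimensional κ (Qt A B)

/-- The dimension of `A / (A ⊓ B)`. -/
noncomputable def rd (A B : Submodule κ E) : ℕ := finrank κ (Qt A B)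

variable {A A' B B' C : Submodule κ E}

theorem Qt_mono (h : A ≤ A') (B : Submodule κ E) : Qt A B ≤ Qt A' B := Submodule.map_mono h

theorem RF.mono (h : A ≤ A') (hf : RF A' B) : RF A B := by
  unfold RF at *
  exact Submodule.finiteDimensional_of_le (Qt_mono h B)

theorem rd_mono (h : A ≤ A') (hf : RF A' B) : rd A B ≤ rd A' B := by
  unfold RF at hf
  exact Submodule.finrank_mono (Qt_mono h B)

theorem map_factor_Qt (h : B ≤ B') (A : Submodule κ E) :
    (Qt A B).map (Submodule.factor h) = Qt A B' := by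
  rw [Qt, Qt, ← Submodule.map_comp, Submodule.factor_comp_mk]

theorem ker_factor (h : B ≤ B') : LinearMap.ker (Submodule.factor h) = Qt B' B := by
  ext x
  obtain ⟨y, rfl⟩ := Submodule.mkQ_surjective _ x
  rw [LinearMap.mem_ker, Submodule.factor_mk]
  constructor
  · intro h1
    exact ⟨y, (Submodule.Quotient.mk_eq_zero _).1 h1, rfl⟩
  · rintro ⟨z, hz, hzy⟩
    have h2 : y - z ∈ B := by
      have := (Submodule.Quotient.eq B).1 hzy
      rw [← neg_sub]
      exact neg_mem this
    have h3 : y ∈ B' := by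
      have := add_mem (h h2) hz
      rwa [sub_add_cancel] at this
    exact (Submodule.Quotient.mk_eq_zero _).2 h3

/-- The linear map `A / B → E / B'`. -/
noncomputable def facm (h : B ≤ B') (A : Submodule κ E) : Qt A B →ₗ[κ] E ⧸ B' :=
  (Submodule.factor h).domRestrict (Qt A B)

theorem range_facm (h : B ≤ B') (A : Submodule κ E) : LinearMap.range (facm h A) = Qt A B' := by
  rw [facm, LinearMap.range_domRestrict, map_factor_Qt]

theorem ker_facm (h : B ≤ B') (A : Submodule κ E) :
    LinearMap.ker (facm h A) = (Qt B' B).comap (Qt A B).subtype := by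
  ext x
  rw [LinearMap.mem_ker, facm, LinearMap.domRestrict_apply, Submodule.mem_comap, ← ker_factor h,
    LinearMap.mem_ker]
  rfl

theorem RF.trans (hCB : C ≤ B) (hBA : B ≤ A) (h1 : RF A B) (h2 : RF B C) : RF A C := by
  have h3 : FiniteDimensional κ (LinearMap.range (facm hCB A)) := by
    rw [range_facm]; exact h1
  have h4 : FiniteDimensional κ (LinearMap.ker (facm hCB A)) := by
    rw [ker_facm]
    have : FiniteDimensional κ (Qt B C) := h2
    exact Module.Finite.equiv (Submodule.comapSubtypeEquivOfLe (Qt_mono hBA C)).symm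
  have h5 : Module.Finite κ (Qt A C ⧸ LinearMap.ker (facm hCB A)) :=
    Module.Finite.equiv (facm hCB A).quotKerEquivRange.symm
  exact Module.Finite.of_submodule_quotient (LinearMap.ker (facm hCB A))

theorem RF.left (hCB : C ≤ B) (h : RF A C) : RF A B := by
  unfold RF at *
  rw [← map_factor_Qt hCB A]
  infer_instance

theorem rd_add (hCB : C ≤ B) (hBA : B ≤ A) (h : RF A C) : rd A C = rd A B + rd B C := by
  have h1 : FiniteDimensional κ (Qt A C) := h
  have h2 := (facm hCB A).finrank_range_add_finrank_ker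
  rw [range_facm, ker_facm,
    (Submodule.comapSubtypeEquivOfLe (Qt_mono hBA C)).finrank_eq] at h2
  exact h2.symm

theorem facm_inj (h : B ≤ B') (hA : A ⊓ B' ≤ B) : Function.Injective (facm h A) := by
  rw [← LinearMap.ker_eq_bot, ker_facm, Submodule.eq_bot_iff]
  rintro ⟨x, hx⟩ hx'
  obtain ⟨a, ha, rfl⟩ := hx
  obtain ⟨b, hb, hab⟩ := hx'
  have h1 : a - b ∈ B := by
    have := (Submodule.Quotient.eq B).1 hab
    rw [← neg_sub]
    exact neg_mem this
  have h2 : a ∈ B' := by
    have := add_mem (h h1) hb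
    rwa [sub_add_cancel] at this
  have h3 : a ∈ B := hA ⟨ha, h2⟩
  apply Subtype.ext
  exact (Submodule.Quotient.mk_eq_zero _).2 h3

theorem RF.of_le (h : B ≤ B') (hAA : A ≤ A') (hA : A ⊓ B' ≤ B) (hf : RF A' B') : RF A B := by
  have h1 : RF A B' := hf.mono hAA
  unfold RF at h1
  rw [← range_facm h A] at h1
  exact Module.Finite.equiv (LinearEquiv.ofInjective _ (facm_inj h hA)).symm

theorem rd_le_of_le (h : B ≤ B') (hAA : A ≤ A') (hA : A ⊓ B' ≤ B) (hf : RF A' B') :
    rd A B ≤ rd A' B' := by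
  refine le_trans (le_of_eq ?_) (rd_mono hAA hf)
  rw [rd, rd, ← range_facm h A]
  exact (LinearEquiv.ofInjective _ (facm_inj h hA)).finrank_eq

theorem RF.of_sup (h : B ≤ B') (hAA : A' ≤ A ⊔ B') (hf : RF A B) : RF A' B' := by
  have h1 : Qt A' B' ≤ Qt A B' := by
    refine (Submodule.map_mono hAA).trans ?_
    rw [Submodule.map_sup, Submodule.mkQ_map_self, sup_bot_eq]
    exact le_rfl
  have h2 : RF A B' := hf.left h
  unfold RF at *
  exact Submodule.finiteDimensional_of_le h1

theorem rd_le_of_sup (h : B ≤ B') (hAA : A' ≤ A ⊔ B') (hf : RF A B) : rd A' B' ≤ rd A B := by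
  have h1 : Qt A' B' ≤ Qt A B' := by
    refine (Submodule.map_mono hAA).trans ?_
    rw [Submodule.map_sup, Submodule.mkQ_map_self, sup_bot_eq]
    exact le_rfl
  have h2 : FiniteDimensional κ (Qt A B') := hf.left h
  have h3 : FiniteDimensional κ (Qt A B) := hf
  refine (Submodule.finrank_mono h1).trans ?_
  rw [← range_facm h A]
  exact LinearMap.finrank_range_le _

/-- The second isomorphism theorem. -/
theorem rd_eq (h : B ≤ B') (hAA : A ≤ A') (hA : A ⊓ B' ≤ B) (hAA' : A' ≤ A ⊔ B')
    (hf : RF A' B') : RF A B ∧ rd A B = rd A' B' :=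
  ⟨RF.of_le h hAA hA hf, le_antisymm (rd_le_of_le h hAA hA hf)
    (rd_le_of_sup h hAA' (RF.of_le h hAA hA hf))⟩

theorem RF_bot : RF A ⊥ ↔ FiniteDimensional κ A := by
  have e : A ≃ₗ[κ] Qt A (⊥ : Submodule κ E) :=
    Submodule.equivMapOfInjective _ (by
      rw [← LinearMap.ker_eq_bot, Submodule.ker_mkQ]) A
  exact ⟨fun h => by
    have : FiniteDimensional κ (Qt A (⊥ : Submodule κ E)) := h
    exact Module.Finite.equiv e.symm, fun h => Module.Finite.equiv e⟩

theorem rd_bot : rd A ⊥ = finrank κ A := by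
  have e : A ≃ₗ[κ] Qt A (⊥ : Submodule κ E) :=
    Submodule.equivMapOfInjective _ (by
      rw [← LinearMap.ker_eq_bot, Submodule.ker_mkQ]) A
  exact e.finrank_eq.symm

theorem RF_self (A : Submodule κ E) : RF A A := by
  unfold RF Qt
  rw [Submodule.mkQ_map_self]
  infer_instance

theorem rd_self (A : Submodule κ E) : rd A A = 0 := by
  unfold rd Qt
  rw [Submodule.mkQ_map_self]
  exact finrank_bot κ _

theorem rd_eq_zero (h : A ≤ B) : rd A B = 0 := by
  have h1 : Qt A B = ⊥ := by
    rw [eq_bot_iff, ← Submodule.mkQ_map_self B]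
    exact Submodule.map_mono h
  rw [rd, h1]
  exact finrank_bot κ _

theorem rd_pos (hf : RF A B) (h : ¬ A ≤ B) : 0 < rd A B := by
  have h1 : FiniteDimensional κ (Qt A B) := hf
  rw [rd, Module.finrank_pos_iff, Submodule.nontrivial_iff_ne_bot]
  intro h2
  apply h
  intro a ha
  have h3 : B.mkQ a ∈ Qt A B := ⟨a, ha, rfl⟩
  rw [h2, Submodule.mem_bot] at h3
  exact (Submodule.Quotient.mk_eq_zero _).1 h3

/-- Linear maps which are injective. -/
theorem Qt_equiv (e : E ≃ₗ[κ] E) (A B : Submodule κ E) :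
    Nonempty (Qt A B ≃ₗ[κ] Qt (A.map e.toLinearMap) (B.map e.toLinearMap)) := by
  let q : (E ⧸ B) ≃ₗ[κ] (E ⧸ B.map e.toLinearMap) :=
    Submodule.Quotient.equiv B (B.map e.toLinearMap) e rfl
  have h1 : (Qt A B).map q.toLinearMap = Qt (A.map e.toLinearMap) (B.map e.toLinearMap) := by
    unfold Qt
    rw [← Submodule.map_comp, ← Submodule.map_comp]
    congr 1
  rw [← h1]
  exact ⟨q.submoduleMap (Qt A B)⟩

theorem RF.map (e : E ≃ₗ[κ] E) (h : RF A B) : RF (A.map e.toLinearMap) (B.map e.toLinearMap) := by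
  obtain ⟨f⟩ := Qt_equiv e A B
  have h1 : FiniteDimensional κ (Qt A B) := h
  exact Module.Finite.equiv f

theorem rd_map (e : E ≃ₗ[κ] E) (A B : Submodule κ E) :
    rd (A.map e.toLinearMap) (B.map e.toLinearMap) = rd A B := by
  obtain ⟨f⟩ := Qt_equiv e A B
  exact f.finrank_eq.symm

/-- A bound of the dimension from linear independence modulo `B`. -/
theorem RF_of_bound (n : ℕ) (h : ∀ (m : ℕ) (z : Fin m → E), (∀ i, z i ∈ A) →
    (∀ c : Fin m → κ, ∑ i, c i • z i ∈ B → ∀ i, c i = 0) → m ≤ n) : RF A B ∧ rd A B ≤ n := by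
  have h1 : Module.rank κ (Qt A B) ≤ n := by
    refine rank_le fun s hs => ?_
    let e := s.equivFin
    have hz : ∀ x : Qt A B, ∃ a ∈ A, B.mkQ a = x := fun x => x.2
    choose z hzA hzx using hz
    refine h s.card (fun i => z (e.symm i)) (fun i => hzA _) fun c hc => ?_
    have h2 : LinearIndependent κ (fun i => ((e.symm i : s) : Qt A B)) :=
      hs.comp _ e.symm.injective
    rw [Fintype.linearIndependent_iff] at h2
    refine h2 c ?_
    apply Subtype.ext
    have h3 : B.mkQ (∑ i, c i • z (e.symm i)) = 0 := (Submodule.Quotient.mk_eq_zero _).2 hc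
    rw [map_sum] at h3
    rw [AddSubmonoidClass.coe_finsetSum, ZeroMemClass.coe_zero, ← h3]
    refine Finset.sum_congr rfl fun i _ => ?_
    rw [map_smul, hzx]
    rfl
  have h2 : RF A B := by
    unfold RF
    rw [FiniteDimensional, ← Module.rank_lt_aleph0_iff]
    exact lt_of_le_of_lt h1 (Cardinal.natCast_lt_aleph0)
  refine ⟨h2, ?_⟩
  have : FiniteDimensional κ (Qt A B) := h2
  exact Module.finrank_le_of_rank_le h1

end Pool.Agent.PF
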