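import Pool.Agent.Lib.TG_h38.PFa
import Pool.Agent.Lib.TG_h38.PFb

/-!
# Function fields of one variable: independence over `κ(x)`, existence of places
-/

set_option autoImplicit false

open Polynomial IntermediateField Module

namespace Pool.Agent.PF

universe u w

variable {κ : Type u} {K : Type w} [Field κ] [Field K] [Algebra κ K]

/-- `K / κ` is a function field of one variable. -/
structure FF (κ : Type u) (K : Type w) [Field κ] [Field K] [Algebra κ K] : Prop where
  ex : ∃ x : K, Transcendental κ x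
  fin : ∀ x : K, Transcendental κ x → FiniteDimensional κ⟮x⟯ K

/-! ### Independence -/

section Ind

variable {ι : Type*} [Fintype ι] {x : K}

theorem dvd_of_red (hx0 : x ≠ 0) {z : ι → K}
    (h : ∀ φ : ι → κ[X], ∑ i, aeval x (φ i) * z i = 0 → ∀ i, (φ i).coeff 0 = 0) (e : ℕ) :
    ∀ φ : ι → κ[X], ∑ i, aeval x (φ i) * z i = 0 → ∀ i, X ^ e ∣ φ i := by
  induction e with
  | zero => exact fun φ _ i => by rw [pow_zero]; exact one_dvd _
  | succ e ih =>
    intro φ hφ i
    have h1 : ∀ i, ∃ ψ : κ[X], φ i = X * ψ := fun i => X_dvd_iff.2 (h φ hφ i)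
    choose ψ hψ using h1
    have h2 : ∑ i, aeval x (ψ i) * z i = 0 := by
      have h3 : x * ∑ i, aeval x (ψ i) * z i = 0 := by
        rw [← hφ, Finset.mul_sum]
        refine Finset.sum_congr rfl fun i _ => ?_
        rw [hψ i, map_mul, aeval_X, mul_assoc]
      exact (mul_eq_zero.1 h3).resolve_left hx0
    rw [hψ i, pow_succ, mul_comm (X ^ e) X]
    exact mul_dvd_mul_left X (ih ψ h2 i)

theorem eq_zero_of_red (hx0 : x ≠ 0) {z : ι → K}
    (h : ∀ φ : ι → κ[X], ∑ i, aeval x (φ i) * z i = 0 → ∀ i, (φ i).coeff 0 = 0)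
    (φ : ι → κ[X]) (hφ : ∑ i, aeval x (φ i) * z i = 0) (i : ι) : φ i = 0 := by
  by_contra h0
  have h1 := dvd_of_red hx0 h ((φ i).natDegree + 1) φ hφ i
  have h2 := Polynomial.natDegree_le_of_dvd h1 h0
  rw [natDegree_X_pow] at h2
  omega

theorem linInd_of_poly (z : ι → K)
    (h : ∀ φ : ι → κ[X], ∑ i, aeval x (φ i) * z i = 0 → ∀ i, φ i = 0) :
    LinearIndependent κ⟮x⟯ z := by
  classical
  rw [Fintype.linearIndependent_iff]
  intro g hg
  have h1 : ∀ i, ∃ r s : κ[X], aeval x s ≠ 0 ∧ (g i : K) = aeval x r / aeval x s := by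
    intro i
    obtain ⟨r, s, hrs⟩ := (IntermediateField.mem_adjoin_simple_iff κ (g i : K)).1 (g i).2
    by_cases hs : aeval x s = 0
    · exact ⟨0, 1, by simp, by rw [hrs, hs]; simp⟩
    · exact ⟨r, s, hs, hrs⟩
  choose r s hs hrs using h1
  have h2 : ∀ i, r i * ∏ j ∈ Finset.univ.erase i, s j = 0 := by
    refine h (fun i => r i * ∏ j ∈ Finset.univ.erase i, s j) ?_
    have h3 : ∑ i, aeval x (r i * ∏ j ∈ Finset.univ.erase i, s j) * z i =
        (∏ j, aeval x (s j)) * ∑ i, g i • z i := by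
      rw [Finset.mul_sum]
      refine Finset.sum_congr rfl fun i _ => ?_
      rw [Algebra.smul_def]
      change _ = _ * ((g i : K) * z i)
      rw [hrs i, map_mul, map_prod, ← Finset.mul_prod_erase Finset.univ _ (Finset.mem_univ i)]
      have := hs i
      field_simp
    rw [h3, hg, mul_zero]
  intro i
  have h4 : r i = 0 := by
    rcases mul_eq_zero.1 (h2 i) with h5 | h5
    · exact h5
    · obtain ⟨j, _, hj⟩ := Finset.prod_eq_zero_iff.1 h5
      exact absurd (by rw [hj, map_zero]) (hs j)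
  apply Subtype.ext
  rw [hrs i, h4, map_zero, zero_div]
  rfl

theorem card_le_finrank [FiniteDimensional κ⟮x⟯ K] (hx0 : x ≠ 0) (z : ι → K)
    (h : ∀ φ : ι → κ[X], ∑ i, aeval x (φ i) * z i = 0 → ∀ i, (φ i).coeff 0 = 0) :
    Fintype.card ι ≤ finrank κ⟮x⟯ K :=
  (linInd_of_poly z (eq_zero_of_red hx0 h)).fintype_card_le_finrank

end Ind

theorem transcendental_ne_zero {x : K} (hx : Transcendental κ x) : x ≠ 0 := by
  rintro rfl
  exact hx isAlgebraic_zero

/-- The bound of `R / x R`. -/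
theorem rd_mul_le {x : K} (hx : Transcendental κ x) [FiniteDimensional κ⟮x⟯ K]
    {R N : Submodule κ K} (hR : ∀ z ∈ R, x * z ∈ R) (hN : ∀ z ∈ R, x * z ∈ N) :
    RF R N ∧ rd R N ≤ finrank κ⟮x⟯ K := by
  have hx0 := transcendental_ne_zero hx
  refine RF_of_bound _ fun m z hz hc => ?_
  have hpoly : ∀ ψ : κ[X], ∀ y ∈ R, aeval x ψ * y ∈ R := by
    intro ψ y hy
    induction ψ using Polynomial.induction_on' with
    | add p q hp hq => rw [map_add, add_mul]; exact add_mem hp hq
    | monomial n a =>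
      rw [aeval_monomial, mul_assoc, ← Algebra.smul_def]
      refine R.smul_mem a ?_
      induction n with
      | zero => rw [pow_zero, one_mul]; exact hy
      | succ n ih =>
        rw [pow_succ, mul_comm (x ^ n) x, mul_assoc]
        exact hR _ ih
  have h1 := card_le_finrank (κ := κ) (x := x) hx0 z (fun φ hφ => ?_)
  · rwa [Fintype.card_fin] at h1
  · refine hc (fun i => (φ i).coeff 0) ?_
    have h2 : ∀ i, ∃ ψ : κ[X], φ i = X * ψ + C ((φ i).coeff 0) := fun i =>
      ⟨(φ i).divX, by rw [mul_comm]; exact ((φ i).divX_mul_X_add).symm⟩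
    choose ψ hψ using h2
    have h3 : ∑ i, (φ i).coeff 0 • z i = -(∑ i, x * (aeval x (ψ i) * z i)) := by
      rw [eq_neg_iff_add_eq_zero, ← hφ, ← Finset.sum_add_distrib]
      refine Finset.sum_congr rfl fun i _ => ?_
      conv_rhs => rw [hψ i, map_add, map_mul, aeval_X, aeval_C]
      rw [Algebra.smul_def]
      ring
    rw [h3]
    exact neg_mem (sum_mem fun i _ => hN _ (hpoly _ _ (hz i)))

end Pool.Agent.PF
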