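import Pool.Agent.Lib.TG_h38.PFc

/-!
# Function fields of one variable: valuation rings are discrete, existence of places
-/

set_option autoImplicit false

open Polynomial IntermediateField Module

namespace Pool.Agent.PF

universe u w

variable {κ : Type u} {K : Type w} [Field κ] [Field K] [Algebra κ K]

section VR

variable {V : ValuationSubring K}

theorem val_const (hV : ∀ c : κ, algebraMap κ K c ∈ V) {c : κ} (hc : c ≠ 0) :
    V.valuation (algebraMap κ K c) = 1 := by
  have h1 : V.valuation (algebraMap κ K c) ≤ 1 := (V.valuation_le_one_iff _).2 (hV c)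
  have h2 : V.valuation (algebraMap κ K c⁻¹) ≤ 1 := (V.valuation_le_one_iff _).2 (hV c⁻¹)
  have h3 : V.valuation (algebraMap κ K c) * V.valuation (algebraMap κ K c⁻¹) = 1 := by
    rw [← _root_.map_mul, ← _root_.map_mul, mul_inv_cancel₀ hc, _root_.map_one, _root_.map_one]
  apply le_antisymm h1
  calc (1 : _) = V.valuation (algebraMap κ K c) * V.valuation (algebraMap κ K c⁻¹) := h3.symm
    _ ≤ V.valuation (algebraMap κ K c) * 1 := by gcongr
    _ = _ := mul_one _

theorem aeval_mem (hV : ∀ c : κ, algebraMap κ K c ∈ V) {y : K} (hy : y ∈ V) (q : κ[X]) :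
    aeval y q ∈ V := by
  induction q using Polynomial.induction_on' with
  | add p q hp hq => rw [_root_.map_add]; exact V.add_mem _ _ hp hq
  | monomial n a =>
    rw [aeval_monomial]
    exact V.mul_mem _ _ (hV a) (pow_mem hy n)

/-- Value of `φ(y)`, `y` in the maximal ideal. -/
theorem val_aeval (hV : ∀ c : κ, algebraMap κ K c ∈ V) {y : K} (hy : V.valuation y < 1)
    (φ : κ[X]) : (φ.coeff 0 = 0 → V.valuation (aeval y φ) ≤ V.valuation y) ∧
      (φ.coeff 0 ≠ 0 → V.valuation (aeval y φ) = 1) := by
  have hyV : y ∈ V := (V.valuation_le_one_iff _).1 hy.le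
  have h1 : aeval y φ = y * aeval y φ.divX + algebraMap κ K (φ.coeff 0) := by
    conv_lhs => rw [← φ.divX_mul_X_add]
    rw [_root_.map_add, _root_.map_mul, aeval_X, aeval_C, mul_comm]
  have h2 : V.valuation (y * aeval y φ.divX) ≤ V.valuation y := by
    rw [_root_.map_mul]
    calc _ ≤ V.valuation y * 1 := by
          gcongr
          exact (V.valuation_le_one_iff _).2 (aeval_mem hV hyV _)
      _ = _ := mul_one _
  refine ⟨fun h => ?_, fun h => ?_⟩
  · rw [h1, h, _root_.map_zero, add_zero]; exact h2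
  · have h3 := val_const hV h
    have h4 : V.valuation (y * aeval y φ.divX) < V.valuation (algebraMap κ K (φ.coeff 0)) := by
      rw [h3]; exact h2.trans_lt hy
    rw [h1, add_comm, Valuation.map_add_eq_of_lt_left _ h4, h3]

theorem transcendental_of_lt (hV : ∀ c : κ, algebraMap κ K c ∈ V) {y : K} (hy : V.valuation y < 1)
    (hy0 : y ≠ 0) : Transcendental κ y := by
  intro halg
  have hint := halg.isIntegral
  have h1 := (val_aeval hV hy (minpoly κ y)).2 (minpoly.coeff_zero_ne_zero hint hy0)
  rw [minpoly.aeval, _root_.map_zero] at h1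
  exact zero_ne_one h1

theorem inv_notMem {x : K} (hx0 : x ≠ 0) (hx : V.valuation x < 1) : x⁻¹ ∉ V := by
  rw [← V.valuation_le_one_iff, map_inv₀, not_le]
  have h0 : V.valuation x ≠ 0 := by rwa [Ne, Valuation.zero_iff]
  exact (one_lt_inv₀ (zero_lt_iff.2 h0)).2 hx

theorem chain_le (hV : ∀ c : κ, algebraMap κ K c ∈ V) {y : K} (hy : V.valuation y < 1)
    (hy0 : y ≠ 0) [FiniteDimensional κ⟮y⟯ K] {m : ℕ} (z : Fin m → K)
    (hmono : StrictMono fun i => V.valuation (z i)) (h1 : ∀ i, V.valuation (z i) < 1)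
    (h2 : ∀ i, V.valuation y ≤ V.valuation (z i)) : m ≤ finrank κ⟮y⟯ K := by
  classical
  have h := card_le_finrank (κ := κ) (x := y) hy0 z (fun φ hφ => ?_)
  · rwa [Fintype.card_fin] at h
  by_contra hcon
  push Not at hcon
  -- the largest index with nonzero constant term
  set S : Finset (Fin m) := Finset.univ.filter fun i => (φ i).coeff 0 ≠ 0 with hS
  have hSne : S.Nonempty := by
    obtain ⟨i, hi⟩ := hcon
    exact ⟨i, by rw [hS, Finset.mem_filter]; exact ⟨Finset.mem_univ _, hi⟩⟩
  set j := S.max' hSne with hj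
  have hjS : (φ j).coeff 0 ≠ 0 := by
    exact (Finset.mem_filter.1 (S.max'_mem hSne)).2
  have hmax : ∀ i, j < i → (φ i).coeff 0 = 0 := by
    intro i hi
    by_contra h0
    have h3 : i ∈ S := by rw [hS, Finset.mem_filter]; exact ⟨Finset.mem_univ _, h0⟩
    exact absurd (S.le_max' i h3) (not_le.2 hi)
  have hyz : ∀ i, V.valuation (z i) ≠ 0 := by
    intro i h0
    have := h2 i
    rw [h0, le_zero_iff, Valuation.zero_iff] at this
    exact hy0 this
  have hval : V.valuation (aeval y (φ j) * z j) = V.valuation (z j) := by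
    rw [_root_.map_mul, (val_aeval hV hy (φ j)).2 hjS, one_mul]
  have hother : V.valuation (∑ i ∈ Finset.univ.erase j, aeval y (φ i) * z i) <
      V.valuation (z j) := by
    refine Valuation.map_sum_lt _ (hyz j) fun i hi => ?_
    have hne := Finset.ne_of_mem_erase hi
    rw [_root_.map_mul]
    rcases lt_or_gt_of_ne hne with h3 | h3
    · calc V.valuation (aeval y (φ i)) * V.valuation (z i) ≤ 1 * V.valuation (z i) := by
            gcongr
            exact (V.valuation_le_one_iff _).2
              (aeval_mem hV ((V.valuation_le_one_iff _).1 hy.le) _)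
        _ = V.valuation (z i) := one_mul _
        _ < V.valuation (z j) := hmono h3
    · calc V.valuation (aeval y (φ i)) * V.valuation (z i) ≤
            V.valuation y * V.valuation (z i) := by
            gcongr
            exact (val_aeval hV hy (φ i)).1 (hmax i h3)
        _ < V.valuation y * 1 := by
            have : V.valuation y ≠ 0 := by rwa [Ne, Valuation.zero_iff]
            exact (mul_lt_mul_iff_right₀ (zero_lt_iff.2 this)).2 (h1 i)
        _ = V.valuation y := mul_one _
        _ ≤ V.valuation (z j) := h2 j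
  have hsum : aeval y (φ j) * z j = -∑ i ∈ Finset.univ.erase j, aeval y (φ i) * z i := by
    rw [eq_neg_iff_add_eq_zero, Finset.add_sum_erase Finset.univ
      (fun i => aeval y (φ i) * z i) (Finset.mem_univ j)]
    exact hφ
  rw [hsum, Valuation.map_neg] at hval
  rw [hval] at hother
  exact lt_irrefl _ hother

/-- There is a uniformizer. -/
theorem exists_unif (hF : FF κ K) (hV : ∀ c : κ, algebraMap κ K c ∈ V) (hne : V ≠ ⊤) :
    ∃ t : K, t ≠ 0 ∧ V.valuation t < 1 ∧ ∀ s, V.valuation s < 1 →
      V.valuation s ≤ V.valuation t := by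
  obtain ⟨y, hy0, hy⟩ : ∃ y : K, y ≠ 0 ∧ V.valuation y < 1 := by
    have h1 : ∃ y, y ∉ V := by
      by_contra hcon
      push Not at hcon
      exact hne (by ext x; exact ⟨fun _ => trivial, fun _ => hcon x⟩)
    obtain ⟨y, hy⟩ := h1
    have hy0 : y ≠ 0 := by rintro rfl; exact hy V.zero_mem
    refine ⟨y⁻¹, inv_ne_zero hy0, ?_⟩
    rw [← V.valuation_le_one_iff, not_le] at hy
    rw [map_inv₀]
    exact inv_lt_one_of_one_lt₀ hy
  by_contra hcon
  push Not at hcon
  choose g hg1 hg2 using hcon
  let T := {s : K // s ≠ 0 ∧ V.valuation s < 1}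
  have hg3 : ∀ s : T, g s.1 s.2.1 s.2.2 ≠ 0 := by
    intro s h0
    have := hg2 s.1 s.2.1 s.2.2
    rw [h0, _root_.map_zero] at this
    exact not_lt_zero this
  let G : T → T := fun s => ⟨g s.1 s.2.1 s.2.2, hg3 s, hg1 s.1 s.2.1 s.2.2⟩
  let F : ℕ → T := fun i => Nat.rec ⟨y, hy0, hy⟩ (fun _ s => G s) i
  have hmono : StrictMono fun i : ℕ => V.valuation (F i).1 := by
    refine strictMono_nat_of_lt_succ fun i => ?_
    exact hg2 (F i).1 (F i).2.1 (F i).2.2
  have hfd := hF.fin y (transcendental_of_lt hV hy hy0)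
  have h3 := chain_le (κ := κ) hV hy hy0 (m := finrank κ⟮y⟯ K + 1) (fun i => (F i).1)
    (fun i j hij => hmono hij) (fun i => (F i).2.2) (fun i => hmono.monotone (Nat.zero_le _))
  omega

theorem exists_zpow (hF : FF κ K) (hV : ∀ c : κ, algebraMap κ K c ∈ V) {t : K} (ht0 : t ≠ 0)
    (ht : V.valuation t < 1) (hmax : ∀ s, V.valuation s < 1 → V.valuation s ≤ V.valuation t)
    {y : K} (hy0 : y ≠ 0) : ∃ m : ℤ, V.valuation y = V.valuation t ^ m := by
  have hvt0 : V.valuation t ≠ 0 := by rwa [Ne, Valuation.zero_iff]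
  have hvt : 0 < V.valuation t := zero_lt_iff.2 hvt0
  have key : ∀ y : K, y ≠ 0 → V.valuation y < 1 → ∃ m : ℤ, V.valuation y = V.valuation t ^ m := by
    intro y hy0 hy
    have hfd := hF.fin y (transcendental_of_lt hV hy hy0)
    have hex : ∃ i : ℕ, 1 ≤ V.valuation (y / t ^ i) := by
      by_contra hcon
      push Not at hcon
      have hmono : StrictMono fun i : ℕ => V.valuation (y / t ^ i) := by
        refine strictMono_nat_of_lt_succ fun i => ?_
        have h1 : y / t ^ i = (y / t ^ (i + 1)) * t := by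
          field_simp
          ring
        have h2 : V.valuation (y / t ^ (i + 1)) ≠ 0 := by
          rw [Ne, Valuation.zero_iff]
          exact div_ne_zero hy0 (pow_ne_zero _ ht0)
        calc V.valuation (y / t ^ i) = V.valuation (y / t ^ (i + 1)) * V.valuation t := by
              rw [h1, _root_.map_mul]
          _ < V.valuation (y / t ^ (i + 1)) * 1 :=
              (mul_lt_mul_iff_right₀ (zero_lt_iff.2 h2)).2 ht
          _ = _ := mul_one _
      have h3 := chain_le (κ := κ) hV hy hy0 (m := finrank κ⟮y⟯ K + 1) (fun i => y / t ^ (i : ℕ))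
        (fun i j hij => hmono hij) (fun i => hcon i) (fun i => by
          have := hmono.monotone (Nat.zero_le (i : ℕ))
          simpa using this)
      omega
    classical
    have h1 := Nat.find_spec hex
    set i := Nat.find hex with hi
    have hi0 : i ≠ 0 := by
      intro h0
      rw [h0, pow_zero, div_one] at h1
      exact absurd hy (not_lt.2 h1)
    obtain ⟨j, hj⟩ := Nat.exists_eq_succ_of_ne_zero hi0
    have h2 : V.valuation (y / t ^ j) < 1 := by
      have := Nat.find_min hex (m := j) (by omega)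
      exact not_le.1 this
    have h3 := hmax _ h2
    have h4 : V.valuation (y / t ^ i) ≤ 1 := by
      have h5 : y / t ^ i = (y / t ^ j) / t := by
        rw [hj, pow_succ, div_div]
      rw [h5, map_div₀]
      exact div_le_one_of_le₀ h3 zero_le
    have h5 : V.valuation (y / t ^ i) = 1 := le_antisymm h4 h1
    refine ⟨i, ?_⟩
    rw [map_div₀, _root_.map_pow] at h5
    rw [zpow_natCast]
    exact eq_of_div_eq_one h5
  rcases lt_trichotomy (V.valuation y) 1 with h | h | h
  · exact key y hy0 h
  · exact ⟨0, by rw [h, zpow_zero]⟩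
  · obtain ⟨m, hm⟩ := key y⁻¹ (inv_ne_zero hy0) (by
      rw [map_inv₀]; exact inv_lt_one_of_one_lt₀ h)
    refine ⟨-m, ?_⟩
    rw [zpow_neg, ← hm, map_inv₀, inv_inv]

/-- Every nontrivial valuation ring containing `κ` is the valuation ring of a place. -/
theorem exists_pl (hF : FF κ K) (hV : ∀ c : κ, algebraMap κ K c ∈ V) (hne : V ≠ ⊤) :
    ∃ P : Pl κ K, ∀ x, x ∈ V ↔ P.Ge 0 x := by
  classical
  obtain ⟨t, ht0, ht, hmax⟩ := exists_unif hF hV hne
  have hvt0 : V.valuation t ≠ 0 := by rwa [Ne, Valuation.zero_iff]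
  have hvt : 0 < V.valuation t := zero_lt_iff.2 hvt0
  choose o ho using fun y : K => fun hy0 : y ≠ 0 => exists_zpow hF hV ht0 ht hmax hy0
  have hinj : ∀ m m' : ℤ, V.valuation t ^ m = V.valuation t ^ m' → m = m' := fun m m' h =>
    (zpow_right_strictAnti₀ hvt ht).injective h
  have hle : ∀ m m' : ℤ, V.valuation t ^ m ≤ V.valuation t ^ m' ↔ m' ≤ m := fun m m' =>
    zpow_le_zpow_iff_right_of_lt_one₀ hvt ht
  let w : K → ℤ := fun y => if h : y = 0 then 0 else o y h
  have hw : ∀ y, y ≠ 0 → V.valuation y = V.valuation t ^ w y := by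
    intro y hy
    have : w y = o y hy := dif_neg hy
    rw [this]
    exact ho y hy
  refine ⟨⟨w, dif_pos rfl, fun x y hx hy => ?_, fun x y hx hy hxy => ?_, fun c hc => ?_,
    ⟨t, ht0, ?_⟩⟩, fun x => ?_⟩
  · apply hinj
    rw [← hw _ (mul_ne_zero hx hy), _root_.map_mul, zpow_add₀ hvt0, hw x hx, hw y hy]
  · rcases le_total (w x) (w y) with h | h
    · rw [min_eq_left h, ← hle, ← hw _ hxy]
      refine (Valuation.map_add _ x y).trans (max_le (hw x hx).le ?_)
      rw [hw y hy, hle]
      exact h
    · rw [min_eq_right h, ← hle, ← hw _ hxy]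
      refine (Valuation.map_add _ x y).trans (max_le ?_ (hw y hy).le)
      rw [hw x hx, hle]
      exact h
  · apply hinj
    have hc' : algebraMap κ K c ≠ 0 := by rwa [Ne, map_eq_zero]
    rw [← hw _ hc', val_const hV hc, zpow_zero]
  · apply hinj
    rw [← hw t ht0, zpow_one]
  · rw [← V.valuation_le_one_iff]
    constructor
    · intro h hx
      change 0 ≤ w x
      rw [hw x hx, ← zpow_zero (V.valuation t), hle] at h
      exact h
    · intro h
      by_cases hx : x = 0
      · rw [hx, _root_.map_zero]; exact zero_le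
      · rw [hw x hx, ← zpow_zero (V.valuation t), hle]
        exact h hx

end VR

/-- Every transcendental element has a zero. -/
theorem exists_zero (hF : FF κ K) {x : K} (hx : Transcendental κ x) : ∃ P : Pl κ K, 0 < P.v x := by
  set B : Subring K := (Algebra.adjoin κ {x}).toSubring with hB
  have hxB : x ∈ B := Algebra.subset_adjoin (Set.mem_singleton x)
  let I : Ideal B := Ideal.span {⟨x, hxB⟩}
  have hI : I ≠ ⊤ := by
    rw [Ne, Ideal.eq_top_iff_one, Ideal.mem_span_singleton']
    rintro ⟨⟨b, hb⟩, h1⟩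
    have h2 : b * x = 1 := congrArg Subtype.val h1
    have hb' : b ∈ Algebra.adjoin κ {x} := hb
    rw [Algebra.adjoin_singleton_eq_range_aeval] at hb'
    obtain ⟨q, hq⟩ := hb'
    have h3 : aeval x (q * X - 1) = 0 := by
      rw [map_sub, _root_.map_mul, aeval_X, _root_.map_one]
      change (aeval x q) * x - 1 = 0
      have : (aeval x q : K) = b := hq
      rw [this, h2, sub_self]
    have h4 := (transcendental_iff.1 hx) _ h3
    have h5 := congrArg (fun p : κ[X] => p.coeff 0) h4
    simp at h5
  obtain ⟨V, hBV, hIV⟩ := Ideal.image_subset_nonunits_valuationSubring I hI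
  have hV : ∀ c : κ, algebraMap κ K c ∈ V := fun c =>
    hBV ((Algebra.adjoin κ {x}).algebraMap_mem c)
  have hxV : V.valuation x < 1 :=
    (ValuationSubring.mem_nonunits_iff (A := V)).1
      (hIV ⟨⟨x, hxB⟩, Ideal.mem_span_singleton_self _, rfl⟩)
  have hx0 := transcendental_ne_zero hx
  have hne : V ≠ ⊤ := by
    rintro rfl
    exact inv_notMem hx0 hxV trivial
  obtain ⟨P, hP⟩ := exists_pl hF hV hne
  refine ⟨P, ?_⟩
  have h1 : x⁻¹ ∉ V := inv_notMem hx0 hxV
  rw [hP] at h1
  by_contra hcon
  push Not at hcon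
  exact h1 fun _ => by rw [P.map_inv]; omega

end Pool.Agent.PF
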