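import Pool.Agent.Lib.TG_h38.PFd

/-!
# Function fields of one variable: the degree of the poles, the product formula
-/

set_option autoImplicit false

open Polynomial IntermediateField Module

namespace Pool.Agent.PF

universe u w

variable {κ : Type u} {K : Type w} [Field κ] [Field K] [Algebra κ K]

/-- Multiplication by `t`. -/
def mulE (κ : Type u) {K : Type w} [Field κ] [Field K] [Algebra κ K] (t : K) (ht : t ≠ 0) :
    K ≃ₗ[κ] K :=
  { LinearMap.mulLeft κ t with
    invFun := fun y => t⁻¹ * y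
    left_inv := fun y => by
      change t⁻¹ * (t * y) = y
      rw [← mul_assoc, inv_mul_cancel₀ ht, one_mul]
    right_inv := fun y => by
      change t * (t⁻¹ * y) = y
      rw [← mul_assoc, mul_inv_cancel₀ ht, one_mul] }

theorem mulE_apply {t : K} (ht : t ≠ 0) (y : K) : (mulE κ t ht).toLinearMap y = t * y := rfl

namespace Pl

variable {P : Pl κ K}

theorem ge_aeval {x : K} (hx : P.Ge 0 x) (q : κ[X]) : P.Ge 0 (aeval x q) := by
  induction q using Polynomial.induction_on' with
  | add p q hp hq => rw [_root_.map_add]; exact Ge.add hp hq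
  | monomial n a =>
    rw [aeval_monomial]
    have h1 : P.Ge 0 (x ^ n) := by
      induction n with
      | zero => rw [pow_zero]; exact fun _ => P.map_one.ge
      | succ n ih => rw [pow_succ]; exact Ge.mul ih hx
    exact Ge.mul (ge_algebraMap a) h1

theorem transcendental_of_pos {x : K} (hx0 : x ≠ 0) (h : 0 < P.v x) : Transcendental κ x := by
  intro halg
  have hint := halg.isIntegral
  have h0 := minpoly.coeff_zero_ne_zero hint hx0
  have h1 : aeval x (minpoly κ x) = x * aeval x (minpoly κ x).divX +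
      algebraMap κ K ((minpoly κ x).coeff 0) := by
    conv_lhs => rw [← (minpoly κ x).divX_mul_X_add]
    rw [_root_.map_add, _root_.map_mul, aeval_X, aeval_C, mul_comm]
  rw [minpoly.aeval] at h1
  have h2 : algebraMap κ K ((minpoly κ x).coeff 0) = -(x * aeval x (minpoly κ x).divX) :=
    eq_neg_of_add_eq_zero_right h1.symm
  have h3 : P.Ge 1 (x * aeval x (minpoly κ x).divX) := by
    have := Ge.mul (P := P) (a := 1) (b := 0) (fun _ => h) (ge_aeval (fun _ => h.le)
      (minpoly κ x).divX)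
    simpa using this
  have h4 := Ge.neg h3
  rw [← h2] at h4
  have h5 := h4 (by rwa [Ne, map_eq_zero])
  rw [P.triv _ h0] at h5
  omega

theorem transcendental_of_ne {x : K} (h : P.v x ≠ 0) : Transcendental κ x := by
  have hx0 : x ≠ 0 := by rintro rfl; exact h P.zero
  rcases lt_or_gt_of_ne h with h1 | h1
  · have h2 := transcendental_of_pos (P := P) (x := x⁻¹) (inv_ne_zero hx0) (by
      rw [P.map_inv]; omega)
    intro h3
    exact h2 (IsAlgebraic.inv_iff.2 h3)
  · exact transcendental_of_pos hx0 h1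

variable (P) in
/-- The degree of a place. -/
noncomputable def deg : ℕ := rd (P.L 0) (P.L 1)

theorem L_map {t : K} (ht : t ≠ 0) (a : ℤ) :
    (P.L a).map (mulE κ t ht).toLinearMap = P.L (P.v t + a) := by
  ext x
  constructor
  · rintro ⟨y, hy, rfl⟩
    rw [mulE_apply]
    exact Ge.mul (ge_self t) hy
  · intro hx
    refine ⟨t⁻¹ * x, ?_, ?_⟩
    · have h1 := Ge.mul (P := P) (ge_self t⁻¹) hx
      rw [P.map_inv] at h1
      refine Ge.mono ?_ h1
      omega
    · rw [mulE_apply, ← mul_assoc, mul_inv_cancel₀ ht, one_mul]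

theorem rf_zero_one (hF : FF κ K) (P : Pl κ K) : RF (P.L 0) (P.L 1) := by
  obtain ⟨t, ht0, ht⟩ := P.unif
  have htr := transcendental_of_ne (P := P) (x := t) (by omega)
  have := hF.fin t htr
  refine (rd_mul_le htr (fun z hz => ?_) fun z hz => ?_).1
  · have h1 := Ge.mul (P := P) (ge_self t) hz
    exact Ge.mono (by omega) h1
  · have h1 := Ge.mul (P := P) (ge_self t) hz
    exact Ge.mono (by omega) h1

theorem deg_pos (hF : FF κ K) (P : Pl κ K) : 0 < P.deg := by
  refine rd_pos (rf_zero_one hF P) fun h => ?_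
  have h1 : (1 : K) ∈ P.L 0 := fun _ => P.map_one.ge
  have h2 := h h1 one_ne_zero
  rw [P.map_one] at h2
  omega

theorem rd_succ (hF : FF κ K) (P : Pl κ K) (a : ℤ) :
    RF (P.L a) (P.L (a + 1)) ∧ rd (P.L a) (P.L (a + 1)) = P.deg := by
  obtain ⟨t, ht0, ht⟩ := P.unif
  have h1 : P.v (t ^ a) = a := by rw [P.map_zpow, ht, mul_one]
  have h2 : t ^ a ≠ 0 := zpow_ne_zero _ ht0
  have e1 : P.L a = (P.L 0).map (mulE κ (t ^ a) h2).toLinearMap := by rw [L_map, h1, add_zero]
  have e2 : P.L (a + 1) = (P.L 1).map (mulE κ (t ^ a) h2).toLinearMap := by rw [L_map, h1]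
  rw [e1, e2]
  exact ⟨(rf_zero_one hF P).map _, rd_map _ _ _⟩

end Pl

/-! ### Spaces of functions with prescribed orders -/

/-- The functions with `v_P ≥ D P`, `P ∈ T`. -/
def M (T : Set (Pl κ K)) (D : Pl κ K → ℤ) : Submodule κ K where
  carrier := {x | ∀ P ∈ T, P.Ge (D P) x}
  add_mem' := fun hx hy P hP => Pl.Ge.add (hx P hP) (hy P hP)
  zero_mem' := fun _ _ => Pl.Ge.zero
  smul_mem' := fun c _ hx P hP => (P.L (D P)).smul_mem c (hx P hP)

theorem mem_M {T : Set (Pl κ K)} {D : Pl κ K → ℤ} {x : K} :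
    x ∈ M T D ↔ ∀ P ∈ T, P.Ge (D P) x := Iff.rfl

theorem M_anti (T : Set (Pl κ K)) {D D' : Pl κ K → ℤ} (h : ∀ P, D P ≤ D' P) : M T D' ≤ M T D :=
  fun _ hx P hP => Pl.Ge.mono (h P) (hx P hP)

section Step

open scoped Classical in
theorem step_le (hF : FF κ K) (T : Set (Pl κ K)) (D : Pl κ K → ℤ) {P : Pl κ K} (hP : P ∈ T) :
    RF (M T D) (M T (D + Pi.single P 1)) ∧
      rd (M T D) (M T (D + Pi.single P 1)) ≤ P.deg := by
  have h0 := Pl.rd_succ hF P (D P)
  have hB : M T (D + Pi.single P 1) ≤ P.L (D P + 1) := by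
    intro x hx
    have := hx P hP
    rwa [Pi.add_apply, Pi.single_eq_same] at this
  have hA : M T D ≤ P.L (D P) := fun x hx => hx P hP
  have hAB : M T D ⊓ P.L (D P + 1) ≤ M T (D + Pi.single P 1) := by
    rintro x ⟨hx, hx'⟩ Q hQ
    by_cases h : Q = P
    · subst h
      rw [Pi.add_apply, Pi.single_eq_same]
      exact hx'
    · rw [Pi.add_apply, Pi.single_eq_of_ne h, add_zero]
      exact hx Q hQ
  refine ⟨RF.of_le hB hA hAB h0.1, ?_⟩
  rw [← h0.2]
  exact rd_le_of_le hB hA hAB h0.1

open scoped Classical in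
theorem step_eq (hF : FF κ K) (T : Finset (Pl κ K)) (D : Pl κ K → ℤ) {P : Pl κ K} (hP : P ∈ T) :
    rd (M (T : Set (Pl κ K)) D) (M (T : Set (Pl κ K)) (D + Pi.single P 1)) = P.deg := by
  have h0 := Pl.rd_succ hF P (D P)
  have hB : M (T : Set (Pl κ K)) (D + Pi.single P 1) ≤ P.L (D P + 1) := by
    intro x hx
    have := hx P hP
    rwa [Pi.add_apply, Pi.single_eq_same] at this
  refine le_antisymm (step_le hF _ D hP).2 ?_
  rw [← h0.2]
  refine rd_le_of_sup hB ?_ (step_le hF _ D hP).1
  intro a ha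
  obtain ⟨N, hN⟩ : ∃ N : ℤ, ∀ Q ∈ T, D Q ≤ N ∧ D P + 1 ≤ N := by
    refine ⟨∑ Q ∈ T, |D Q| + 1, fun Q hQ => ?_⟩
    have h1 : |D Q| ≤ ∑ Q ∈ T, |D Q| :=
      Finset.single_le_sum (f := fun Q => |D Q|) (fun _ _ => abs_nonneg _) hQ
    have h2 : |D P| ≤ ∑ Q ∈ T, |D Q| :=
      Finset.single_le_sum (f := fun Q => |D Q|) (fun _ _ => abs_nonneg _) hP
    have h3 := le_abs_self (D Q)
    have h4 := le_abs_self (D P)
    constructor <;> omega
  obtain ⟨z, hz⟩ := Pl.exists_approx T (fun Q => if Q = P then a else 0) N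
  have hzP := hz P hP
  rw [if_pos rfl] at hzP
  have hz' : z ∈ M (T : Set (Pl κ K)) D := by
    intro Q hQ
    by_cases h : Q = P
    · subst h
      have h1 := Pl.Ge.add (Pl.Ge.mono (hN Q hQ).1 hzP) ha
      rwa [sub_add_cancel] at h1
    · have h1 := hz Q hQ
      rw [if_neg h, sub_zero] at h1
      exact Pl.Ge.mono (hN Q hQ).1 h1
  refine Submodule.mem_sup.2 ⟨z, hz', a - z, ?_, by ring⟩
  have h1 := Pl.Ge.neg hzP
  rw [neg_sub] at h1
  exact Pl.Ge.mono (hN P hP).2 h1

/-- The degree of a divisor. -/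
noncomputable def dg (E : Pl κ K →₀ ℕ) : ℕ := E.sum fun P n => n * P.deg

theorem dg_add (E E' : Pl κ K →₀ ℕ) : dg (E + E') = dg E + dg E' := by
  unfold dg
  rw [Finsupp.sum_add_index']
  · intro P; rw [zero_mul]
  · intro P m n; rw [add_mul]

theorem dg_single (P : Pl κ K) (n : ℕ) : dg (Finsupp.single P n) = n * P.deg := by
  unfold dg
  rw [Finsupp.sum_single_index (zero_mul _)]

theorem dg_nsmul (l : ℕ) (E : Pl κ K →₀ ℕ) : dg (l • E) = l * dg E := by
  induction l with
  | zero => simp [dg]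
  | succ l ih => rw [succ_nsmul, dg_add, ih]; ring

/-- `D + E`. -/
def addE (D : Pl κ K → ℤ) (E : Pl κ K →₀ ℕ) : Pl κ K → ℤ := fun P => D P + E P

theorem addE_add (D : Pl κ K → ℤ) (E E' : Pl κ K →₀ ℕ) :
    addE D (E + E') = addE (addE D E) E' := by
  funext P
  simp only [addE, Finsupp.add_apply]
  push_cast
  ring

theorem addE_zero (D : Pl κ K → ℤ) : addE D 0 = D := by
  funext P
  simp [addE]

theorem le_addE (D : Pl κ K → ℤ) (E : Pl κ K →₀ ℕ) (P : Pl κ K) : D P ≤ addE D E P := by
  simp [addE]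

open scoped Classical in
theorem addE_single (D : Pl κ K → ℤ) (P : Pl κ K) :
    addE D (Finsupp.single P 1) = D + Pi.single P 1 := by
  funext Q
  simp only [addE, Pi.add_apply]
  by_cases h : Q = P
  · subst h
    rw [Finsupp.single_eq_same, Pi.single_eq_same]
    rfl
  · rw [Finsupp.single_eq_of_ne h, Pi.single_eq_of_ne h]
    rfl

theorem rd_addE_le (hF : FF κ K) (T : Set (Pl κ K)) (E : Pl κ K →₀ ℕ) :
    ∀ D : Pl κ K → ℤ, (∀ P, E P ≠ 0 → P ∈ T) →
    RF (M T D) (M T (addE D E)) ∧ rd (M T D) (M T (addE D E)) ≤ dg E := by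
  classical
  induction E using Finsupp.induction_linear with
  | zero =>
    intro D _
    rw [addE_zero]
    exact ⟨RF_self _, by rw [rd_self]; exact Nat.zero_le _⟩
  | add E E' ih ih' =>
    intro D hT
    have hE : ∀ P, E P ≠ 0 → P ∈ T := fun P hP => hT P (by
      rw [Finsupp.add_apply]; omega)
    have hE' : ∀ P, E' P ≠ 0 → P ∈ T := fun P hP => hT P (by
      rw [Finsupp.add_apply]; omega)
    obtain ⟨h1, h2⟩ := ih D hE
    obtain ⟨h3, h4⟩ := ih' (addE D E) hE'
    rw [addE_add, dg_add]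
    have h5 := M_anti T (le_addE D E)
    have h6 := M_anti T (le_addE (addE D E) E')
    have h7 := RF.trans h6 h5 h1 h3
    refine ⟨h7, ?_⟩
    rw [rd_add h6 h5 h7]
    exact add_le_add h2 h4
  | single P n =>
    induction n with
    | zero =>
      intro D _
      rw [Finsupp.single_zero, addE_zero]
      exact ⟨RF_self _, by rw [rd_self]; exact Nat.zero_le _⟩
    | succ n ih =>
      intro D hT
      have hP : P ∈ T := hT P (by rw [Finsupp.single_eq_same]; omega)
      rw [Finsupp.single_add, addE_add, dg_add, addE_single]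
      obtain ⟨h1, h2⟩ := ih D (fun Q hQ => by
        by_cases h : Q = P
        · rw [h]; exact hP
        · rw [Finsupp.single_eq_of_ne h] at hQ; exact absurd rfl hQ)
      obtain ⟨h3, h4⟩ := step_le hF T (addE D (Finsupp.single P n)) hP
      have h5 := M_anti T (le_addE D (Finsupp.single P n))
      have h6 : M T (addE D (Finsupp.single P n) + Pi.single P 1) ≤
          M T (addE D (Finsupp.single P n)) := by
        rw [← addE_single]
        exact M_anti T (le_addE _ _)
      have h7 := RF.trans h6 h5 h1 h3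
      refine ⟨h7, ?_⟩
      rw [rd_add h6 h5 h7, dg_single P 1, one_mul]
      exact add_le_add h2 h4

theorem rd_addE_eq (hF : FF κ K) (T : Finset (Pl κ K)) (E : Pl κ K →₀ ℕ) :
    ∀ D : Pl κ K → ℤ, (∀ P, E P ≠ 0 → P ∈ T) →
    rd (M (T : Set (Pl κ K)) D) (M (T : Set (Pl κ K)) (addE D E)) = dg E := by
  classical
  induction E using Finsupp.induction_linear with
  | zero =>
    intro D _
    rw [addE_zero, rd_self]
    simp [dg]
  | add E E' ih ih' =>
    intro D hT
    have hE : ∀ P, E P ≠ 0 → P ∈ T := fun P hP => hT P (by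
      rw [Finsupp.add_apply]; omega)
    have hE' : ∀ P, E' P ≠ 0 → P ∈ T := fun P hP => hT P (by
      rw [Finsupp.add_apply]; omega)
    have h1 := (rd_addE_le hF (T : Set (Pl κ K)) E D hE).1
    have h3 := (rd_addE_le hF (T : Set (Pl κ K)) E' (addE D E) hE').1
    rw [addE_add, dg_add]
    have h5 := M_anti (T : Set (Pl κ K)) (le_addE D E)
    have h6 := M_anti (T : Set (Pl κ K)) (le_addE (addE D E) E')
    have h7 := RF.trans h6 h5 h1 h3
    rw [rd_add h6 h5 h7, ih D hE, ih' _ hE']
  | single P n =>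
    induction n with
    | zero =>
      intro D _
      rw [Finsupp.single_zero, addE_zero, rd_self]
      simp [dg]
    | succ n ih =>
      intro D hT
      have hP : P ∈ T := hT P (by rw [Finsupp.single_eq_same]; omega)
      have hP' : ∀ Q, (Finsupp.single P n) Q ≠ 0 → Q ∈ T := fun Q hQ => by
        by_cases h : Q = P
        · rw [h]; exact hP
        · rw [Finsupp.single_eq_of_ne h] at hQ; exact absurd rfl hQ
      rw [Finsupp.single_add, addE_add, dg_add, addE_single]
      have h1 := (rd_addE_le hF (T : Set (Pl κ K)) (Finsupp.single P n) D hP').1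
      have h3 := (step_le hF (T : Set (Pl κ K)) (addE D (Finsupp.single P n)) hP).1
      have h5 := M_anti (T : Set (Pl κ K)) (le_addE D (Finsupp.single P n))
      have h6 : M (T : Set (Pl κ K)) (addE D (Finsupp.single P n) + Pi.single P 1) ≤
          M (T : Set (Pl κ K)) (addE D (Finsupp.single P n)) := by
        rw [← addE_single]
        exact M_anti (T : Set (Pl κ K)) (le_addE _ _)
      have h7 := RF.trans h6 h5 h1 h3
      rw [rd_add h6 h5 h7, ih D hP', step_eq hF T _ hP, dg_single P 1, one_mul]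

end Step

end Pool.Agent.PF
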